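import Pool.Agent.Helper52.NG.Fin

/-!
# From divergent sums to dense dyadic boxes
-/

namespace Pool.Agent.Helper52.NG

open Finset

open Classical in
/-- the part of `A` in `[2^j]²` -/
noncomputable def bx (A : Set (ℕ × ℕ)) (j : ℕ) : Finset (ℕ × ℕ) :=
  (Icc 1 (2 ^ j) ×ˢ Icc 1 (2 ^ j)).filter (fun z => z ∈ A)

theorem bx_sub (A : Set (ℕ × ℕ)) (j : ℕ) : bx A j ⊆ Icc 1 (2 ^ j) ×ˢ Icc 1 (2 ^ j) := by
  classical
  intro z hz
  unfold bx at hz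
  rw [mem_filter] at hz
  exact hz.1

theorem bx_mem {A : Set (ℕ × ℕ)} {j : ℕ} {z : ℕ × ℕ} (hz : z ∈ bx A j) : z ∈ A := by
  classical
  unfold bx at hz
  rw [mem_filter] at hz
  exact hz.2

theorem summ (A : Set (ℕ × ℕ)) (hA : ∀ p ∈ A, 0 < p.1 ∧ 0 < p.2) (s : ℝ) (hs0 : 0 ≤ s)
    (hs : s ≤ 1) (w : ℕ → ℝ) (hw0 : ∀ j, 0 ≤ w j) (hw : Summable w)
    (h : ∀ j, ((bx A j).card : ℝ) ≤ w j * (((2 : ℝ) ^ j) ^ 2) ^ s) :
    Summable (fun p : A => 1 / ((p.1.1 : ℝ) ^ 2 + (p.1.2 : ℝ) ^ 2) ^ s) := by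
  classical
  apply summable_of_sum_le (c := 4 * ∑' j, w (j + 1))
  · intro p
    positivity
  intro u
  set lv : A → ℕ := fun p => Nat.log 2 (max p.1.1 p.1.2) with hlv
  obtain ⟨n, hn⟩ : ∃ n, ∀ p ∈ u, lv p < n := by
    refine ⟨(u.sup lv) + 1, fun p hp => ?_⟩
    exact Nat.lt_succ_of_le (Finset.le_sup hp)
  have hmaps : ∀ p ∈ u, lv p ∈ range n := fun p hp => mem_range.mpr (hn p hp)
  rw [← Finset.sum_fiberwise_of_maps_to hmaps]
  have hterm : ∀ J ∈ range n,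
      ∑ p ∈ u with lv p = J, 1 / ((p.1.1 : ℝ) ^ 2 + (p.1.2 : ℝ) ^ 2) ^ s ≤ 4 * w (J + 1) := by
    intro J _
    have h1 : ∀ p ∈ u.filter (fun p => lv p = J),
        1 / ((p.1.1 : ℝ) ^ 2 + (p.1.2 : ℝ) ^ 2) ^ s ≤ 1 / (((2 : ℝ) ^ J) ^ 2) ^ s := by
      intro p hp
      rw [mem_filter] at hp
      have hpJ : Nat.log 2 (max p.1.1 p.1.2) = J := hp.2
      have h0 : 0 < max p.1.1 p.1.2 := lt_of_lt_of_le (hA _ p.2).1 (le_max_left _ _)
      have h2 : 2 ^ J ≤ max p.1.1 p.1.2 := by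
        rw [← hpJ]
        exact Nat.pow_log_le_self 2 h0.ne'
      have h3 : ((2 : ℝ) ^ J) ≤ max (p.1.1 : ℝ) (p.1.2 : ℝ) := by
        exact_mod_cast h2
      have h4 : ((2 : ℝ) ^ J) ^ 2 ≤ (p.1.1 : ℝ) ^ 2 + (p.1.2 : ℝ) ^ 2 := by
        have hpos : (0 : ℝ) ≤ (2 : ℝ) ^ J := by positivity
        rcases le_total (p.1.1 : ℝ) (p.1.2 : ℝ) with hle | hle
        · rw [max_eq_right hle] at h3
          nlinarith [sq_nonneg (p.1.1 : ℝ)]
        · rw [max_eq_left hle] at h3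
          nlinarith [sq_nonneg (p.1.2 : ℝ)]
      apply one_div_le_one_div_of_le
      · exact Real.rpow_pos_of_pos (by positivity) _
      · exact Real.rpow_le_rpow (by positivity) h4 hs0
    have h2 := Finset.sum_le_card_nsmul _ _ _ h1
    rw [nsmul_eq_mul] at h2
    have h3 : ((u.filter (fun p => lv p = J)).card : ℝ) ≤ (bx A (J + 1)).card := by
      have h4 : ((u.filter (fun p => lv p = J)).map
          ⟨Subtype.val, Subtype.val_injective⟩) ⊆ bx A (J + 1) := by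
        intro z hz
        rw [Finset.mem_map] at hz
        obtain ⟨p, hp, rfl⟩ := hz
        rw [mem_filter] at hp
        have hpJ : Nat.log 2 (max p.1.1 p.1.2) = J := hp.2
        have h5 : max p.1.1 p.1.2 < 2 ^ (J + 1) := by
          rw [← hpJ]
          exact Nat.lt_pow_succ_log_self (by norm_num) _
        have h6 := hA _ p.2
        have h7 := le_max_left p.1.1 p.1.2
        have h8 := le_max_right p.1.1 p.1.2
        unfold bx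
        rw [mem_filter, mem_product, mem_Icc, mem_Icc]
        refine ⟨⟨⟨h6.1, ?_⟩, ⟨h6.2, ?_⟩⟩, p.2⟩
        · exact h7.trans h5.le
        · exact h8.trans h5.le
      have h5 := card_le_card h4
      rw [card_map] at h5
      exact_mod_cast h5
    have h4 := h (J + 1)
    have hpw : (0 : ℝ) < (((2 : ℝ) ^ J) ^ 2) ^ s := Real.rpow_pos_of_pos (by positivity) _
    have h5 : (((2 : ℝ) ^ (J + 1)) ^ 2) ^ s ≤ 4 * (((2 : ℝ) ^ J) ^ 2) ^ s := by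
      have h6 : ((2 : ℝ) ^ (J + 1)) ^ 2 = 4 * ((2 : ℝ) ^ J) ^ 2 := by
        rw [pow_succ]
        ring
      rw [h6, Real.mul_rpow (by norm_num) (by positivity)]
      apply mul_le_mul_of_nonneg_right _ hpw.le
      calc (4 : ℝ) ^ s ≤ (4 : ℝ) ^ (1 : ℝ) := Real.rpow_le_rpow_of_exponent_le (by norm_num) hs
        _ = 4 := Real.rpow_one 4
    calc ∑ p ∈ u with lv p = J, 1 / ((p.1.1 : ℝ) ^ 2 + (p.1.2 : ℝ) ^ 2) ^ s
        ≤ ((u.filter (fun p => lv p = J)).card : ℝ) * (1 / (((2 : ℝ) ^ J) ^ 2) ^ s) := h2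
      _ ≤ (w (J + 1) * (4 * (((2 : ℝ) ^ J) ^ 2) ^ s)) * (1 / (((2 : ℝ) ^ J) ^ 2) ^ s) := by
          apply mul_le_mul_of_nonneg_right _ (by positivity)
          exact h3.trans (h4.trans (mul_le_mul_of_nonneg_left h5 (hw0 _)))
      _ = 4 * w (J + 1) := by
          field_simp
  refine (Finset.sum_le_sum hterm).trans ?_
  rw [← Finset.mul_sum]
  apply mul_le_mul_of_nonneg_left _ (by norm_num)
  exact ((summable_nat_add_iff 1).2 hw).sum_le_tsum (range n) (fun J _ => hw0 _)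

theorem freq (A : Set (ℕ × ℕ)) (hA : ∀ p ∈ A, 0 < p.1 ∧ 0 < p.2) (s : ℝ) (hs0 : 0 ≤ s)
    (hs : s ≤ 1) (w : ℕ → ℝ) (hw0 : ∀ j, 0 ≤ w j) (hw : Summable w)
    (hns : ¬ Summable (fun p : A => 1 / ((p.1.1 : ℝ) ^ 2 + (p.1.2 : ℝ) ^ 2) ^ s)) (j0 : ℕ) :
    ∃ j, j0 ≤ j ∧ w j * (((2 : ℝ) ^ j) ^ 2) ^ s < (bx A j).card := by
  by_contra hcon
  push Not at hcon
  apply hns
  refine summ A hA s hs0 hs (fun j => w j + if j < j0 then
    ((bx A j).card : ℝ) / (((2 : ℝ) ^ j) ^ 2) ^ s else 0) ?_ ?_ ?_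
  · intro j
    have := hw0 j
    have h1 : (0 : ℝ) ≤ ((bx A j).card : ℝ) / (((2 : ℝ) ^ j) ^ 2) ^ s := by positivity
    split_ifs <;> linarith
  · refine hw.add (summable_of_hasFiniteSupport ?_)
    refine (Set.finite_lt_nat j0).subset fun j hj => ?_
    by_contra h
    rw [Function.mem_support] at hj
    exact hj (if_neg h)
  · intro j
    have hp : (0 : ℝ) < (((2 : ℝ) ^ j) ^ 2) ^ s := Real.rpow_pos_of_pos (by positivity) _
    by_cases hj : j < j0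
    · simp only [if_pos hj]
      rw [add_mul, div_mul_cancel₀ _ hp.ne']
      have := mul_nonneg (hw0 j) hp.le
      linarith
    · simp only [if_neg hj, add_zero]
      exact hcon j (by omega)

/-- `A` contains an `m × m` grid whose distance from the homothetic copy `d {0,…,m-1}² + (s,t)`
is at most `ρ` in each coordinate. -/
def NearGrid (A : Set (ℕ × ℕ)) (m : ℕ) (d ρ : ℝ) : Prop :=
  ∃ (x y : Fin m → ℕ) (s t : ℝ), (∀ a b, (x a, y b) ∈ A) ∧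
    (∀ a : Fin m, |(x a : ℝ) - (s + (a : ℕ) * d)| ≤ ρ) ∧
    (∀ b : Fin m, |(y b : ℝ) - (t + (b : ℕ) * d)| ≤ ρ)

theorem NearGrid.mono {A : Set (ℕ × ℕ)} {m : ℕ} {d ρ ρ' : ℝ} (h : NearGrid A m d ρ)
    (hρ : ρ ≤ ρ') : NearGrid A m d ρ' := by
  obtain ⟨x, y, s, t, h1, h2, h3⟩ := h
  exact ⟨x, y, s, t, h1, fun a => (h2 a).trans hρ, fun b => (h3 b).trans hρ⟩

theorem box_grid (m : ℕ) (hm : 0 < m) : ∃ C : ℝ, 0 < C ∧ ∀ (A : Set (ℕ × ℕ)) (j μ k D : ℕ) (δ : ℝ),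
    0 < δ → δ * ((2 : ℝ) ^ j) ^ 2 ≤ (bx A j).card → 4 * m ≤ 2 ^ μ → μ * k ≤ j → D ≤ k →
    C * Real.log (2 / δ) < (k : ℝ) - D →
    ∃ i, D ≤ i ∧ i < k ∧
      NearGrid A m ((2 ^ μ / (4 * m) * (2 ^ μ) ^ i : ℕ) : ℝ) (((2 ^ μ) ^ i : ℕ) : ℝ) := by
  obtain ⟨C, hC, hmain⟩ := fin_main m hm
  refine ⟨C, hC, ?_⟩
  intro A j μ k D δ hδ hcard hμ hk hD hCk
  have hsub := bx_sub A j
  obtain ⟨B, hB1, hB2, hB3⟩ := hmain (2 ^ j) (bx A j) (by positivity) hsub δ hδ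
    (by push_cast; exact hcard) 1 (2 ^ μ) k hμ (by
      rw [one_mul, ← pow_mul]
      exact Nat.pow_le_pow_right (by norm_num) hk)
  have hBk : B.card < (Ico D k).card := by
    rw [Nat.card_Ico]
    have h1 : (B.card : ℝ) < (k : ℝ) - D := lt_of_le_of_lt hB2 hCk
    rw [← Nat.cast_sub hD] at h1
    exact_mod_cast h1
  obtain ⟨i, hi, hiB⟩ := exists_mem_notMem_of_card_lt_card hBk
  rw [mem_Ico] at hi
  refine ⟨i, hi.1, hi.2, ?_⟩
  obtain ⟨s, t, I, J, hI, hJ, hg⟩ := hB3 i (mem_range.2 hi.2) hiB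
  obtain ⟨h, hh⟩ : ∃ h, h = 2 ^ μ / (4 * m) := ⟨_, rfl⟩
  rw [← hh] at hg ⊢
  choose z hz hz1 hz2 using hg
  have hm0 : Nonempty (Fin m) := ⟨⟨0, hm⟩⟩
  obtain ⟨o⟩ := hm0
  have hx : ∀ a b, (z a b).1 = (z a o).1 := by
    intro a b
    have h1 := hz1 a b
    have h2 := hz1 a o
    have : ((z a b).1 : ℤ) = (z a o).1 := by rw [h1, h2]
    exact_mod_cast this
  have hy : ∀ a b, (z a b).2 = (z o b).2 := by
    intro a b
    have h1 := hz2 a b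
    have h2 := hz2 o b
    have : ((z a b).2 : ℤ) = (z o b).2 := by rw [h1, h2]
    exact_mod_cast this
  refine ⟨fun a => (z a o).1, fun b => (z o b).2, s, t, ?_, ?_, ?_⟩
  · intro a b
    show ((z a o).1, (z o b).2) ∈ A
    rw [← hx a b, ← hy a b]
    exact bx_mem (hz a b)
  · intro a
    have h1 : (((z a o).1 : ℤ) : ℝ) = ((s + (1 : ℕ) * ((a : ℕ) *
        ((h : ℤ) * ((2 ^ μ : ℕ) : ℤ) ^ i) + I a) : ℤ) : ℝ) := by
      rw [hz1 a o]
    rw [Int.cast_natCast] at h1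
    rw [h1]
    have h2 : ((I a : ℕ) : ℝ) ≤ (((2 ^ μ) ^ i : ℕ) : ℝ) := by exact_mod_cast (hI a).le
    have h3 : (0 : ℝ) ≤ ((I a : ℕ) : ℝ) := by positivity
    rw [abs_le]
    push_cast at h2 ⊢
    constructor <;> nlinarith
  · intro b
    have h1 : (((z o b).2 : ℤ) : ℝ) = ((t + (1 : ℕ) * ((b : ℕ) *
        ((h : ℤ) * ((2 ^ μ : ℕ) : ℤ) ^ i) + J b) : ℤ) : ℝ) := by
      rw [hz2 o b]
    rw [Int.cast_natCast] at h1
    rw [h1]
    have h2 : ((J b : ℕ) : ℝ) ≤ (((2 ^ μ) ^ i : ℕ) : ℝ) := by exact_mod_cast (hJ b).le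
    have h3 : (0 : ℝ) ≤ ((J b : ℕ) : ℝ) := by positivity
    rw [abs_le]
    push_cast at h2 ⊢
    constructor <;> nlinarith

end Pool.Agent.Helper52.NG
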