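import Pool.Agent.Helper52.NG.Inv

/-!
# Grid counts in windows and the step lemma
-/

namespace Pool.Agent.Helper52.NG

open Finset

variable {G : Type*} [AddCommGroup G]

/-- index vectors of a window of length `L` -/
def Wd (n L : ℕ) : Finset (Fin n → ℕ) := Fintype.piFinset fun _ => range L

/-- number of `x` in the window of length `L` at `u` joined to all `y q` -/
def ff (A : G → G → ℝ) (e : G) {n : ℕ} (L : ℕ) (u : G) (y : Fin n → G) : ℝ :=
  ∑ i ∈ range L, ∏ q, A (u + i • e) (y q)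

/-- number of `y` in the window of length `K` at `v` joined to all `x p` -/
def ee (A : G → G → ℝ) (e : G) {n : ℕ} (K : ℕ) (v : G) (x : Fin n → G) : ℝ :=
  ∑ j ∈ range K, ∏ p, A (x p) (v + j • e)

theorem ff_nonneg {A : G → G → ℝ} (hA : ∀ u v, 0 ≤ A u v) (e : G) {n : ℕ} (L : ℕ) (u : G)
    (y : Fin n → G) : 0 ≤ ff A e L u y :=
  sum_nonneg fun _ _ => prod_nonneg fun _ _ => hA _ _

theorem ee_nonneg {A : G → G → ℝ} (hA : ∀ u v, 0 ≤ A u v) (e : G) {n : ℕ} (L : ℕ) (u : G)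
    (y : Fin n → G) : 0 ≤ ee A e L u y :=
  sum_nonneg fun _ _ => prod_nonneg fun _ _ => hA _ _

theorem sum_range_mul (M L : ℕ) (F : ℕ → ℝ) :
    ∑ i ∈ range (M * L), F i = ∑ a ∈ range M, ∑ i ∈ range L, F (a * L + i) := by
  induction M with
  | zero => simp
  | succ M ih => rw [Nat.add_mul, one_mul, sum_range_add, ih, sum_range_succ]

theorem ff_mul (A : G → G → ℝ) (e : G) {n : ℕ} (M L : ℕ) (u : G) (y : Fin n → G) :
    ff A e (M * L) u y = ∑ a ∈ range M, ff A e L (u + a • (L • e)) y := by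
  unfold ff
  rw [sum_range_mul]
  refine sum_congr rfl fun a _ => sum_congr rfl fun i _ => prod_congr rfl fun q _ => ?_
  rw [add_smul, mul_smul, add_assoc]

theorem ee_mul (A : G → G → ℝ) (e : G) {n : ℕ} (M L : ℕ) (v : G) (x : Fin n → G) :
    ee A e (M * L) v x = ∑ a ∈ range M, ee A e L (v + a • (L • e)) x := by
  unfold ee
  rw [sum_range_mul]
  refine sum_congr rfl fun a _ => sum_congr rfl fun i _ => prod_congr rfl fun q _ => ?_
  rw [add_smul, mul_smul, add_assoc]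

variable [Fintype G]

/-- the number of grids (first form) -/
def QX (A : G → G → ℝ) (e : G) {n : ℕ} (c : Fin n → G) (L K : ℕ) : ℝ :=
  ∑ t ∈ (univ : Finset G) ×ˢ Wd n K, ∑ u, ∏ p, ff A e L (u + c p) (fun q => t.1 + t.2 q • e)

/-- the number of grids (second form) -/
def QY (A : G → G → ℝ) (e : G) {n : ℕ} (c : Fin n → G) (L K : ℕ) : ℝ :=
  ∑ t ∈ (univ : Finset G) ×ˢ Wd n L, ∑ v, ee A e K v (fun p => t.1 + c p + t.2 p • e) ^ n

theorem QX_eq_QY (A : G → G → ℝ) (e : G) {n : ℕ} (c : Fin n → G) (L K : ℕ) :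
    QX A e c L K = QY A e c L K := by
  have h1 : ∀ (u v : G) (J : Fin n → ℕ), ∏ p, ff A e L (u + c p) (fun q => v + J q • e) =
      ∑ I ∈ Wd n L, ∏ p, ∏ q, A (u + c p + I p • e) (v + J q • e) := by
    intro u v J
    unfold ff Wd
    rw [prod_univ_sum]
  have h2 : ∀ (u v : G) (I : Fin n → ℕ), ee A e K v (fun p => u + c p + I p • e) ^ n =
      ∑ J ∈ Wd n K, ∏ p, ∏ q, A (u + c p + I p • e) (v + J q • e) := by
    intro u v I
    have h3 : ee A e K v (fun p => u + c p + I p • e) ^ n =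
        ∏ _q : Fin n, ee A e K v (fun p => u + c p + I p • e) := by
      rw [prod_const, card_univ, Fintype.card_fin]
    rw [h3]
    unfold ee Wd
    rw [prod_univ_sum]
    exact sum_congr rfl fun J _ => prod_comm
  unfold QX QY
  simp only [h1, h2]
  rw [sum_product, sum_product]
  calc ∑ v, ∑ J ∈ Wd n K, ∑ u, ∑ I ∈ Wd n L, ∏ p, ∏ q, A (u + c p + I p • e) (v + J q • e)
      = ∑ v, ∑ u, ∑ J ∈ Wd n K, ∑ I ∈ Wd n L, ∏ p, ∏ q, A (u + c p + I p • e) (v + J q • e) :=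
        sum_congr rfl fun v _ => sum_comm
    _ = ∑ u, ∑ v, ∑ J ∈ Wd n K, ∑ I ∈ Wd n L, ∏ p, ∏ q, A (u + c p + I p • e) (v + J q • e) :=
        sum_comm
    _ = ∑ u, ∑ v, ∑ I ∈ Wd n L, ∑ J ∈ Wd n K, ∏ p, ∏ q, A (u + c p + I p • e) (v + J q • e) :=
        sum_congr rfl fun u _ => sum_congr rfl fun v _ => sum_comm
    _ = ∑ u, ∑ I ∈ Wd n L, ∑ v, ∑ J ∈ Wd n K, ∏ p, ∏ q, A (u + c p + I p • e) (v + J q • e) :=
        sum_congr rfl fun u _ => sum_comm

theorem QX_zero (A : G → G → ℝ) (e : G) (n L K : ℕ) :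
    QX A e (0 : Fin n → G) L K =
      ∑ t ∈ (univ : Finset G) ×ˢ Wd n K, ∑ u, ff A e L u (fun q => t.1 + t.2 q • e) ^ n := by
  unfold QX
  refine sum_congr rfl fun t _ => sum_congr rfl fun u _ => ?_
  simp only [Pi.zero_apply, add_zero, prod_const, card_univ, Fintype.card_fin]

/-- averages over `M` windows, in the first direction -/
theorem QX_avg (A : G → G → ℝ) (e : G) (n M L K : ℕ) :
    ∑ t ∈ (univ : Finset G) ×ˢ Wd n K, ∑ u,
      ((∑ a ∈ range M, ff A e L (u + a • (L • e)) (fun q => t.1 + t.2 q • e)) / M) ^ n =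
      QX A e (0 : Fin n → G) (M * L) K / (M : ℝ) ^ n := by
  rw [QX_zero, sum_div]
  refine sum_congr rfl fun t _ => ?_
  rw [sum_div]
  refine sum_congr rfl fun u _ => ?_
  rw [ff_mul, div_pow]

/-- averages over `M` windows, in the second direction -/
theorem QY_avg (A : G → G → ℝ) (e : G) {n : ℕ} (c : Fin n → G) (M L K : ℕ) :
    ∑ t ∈ (univ : Finset G) ×ˢ Wd n L, ∑ v,
      ((∑ a ∈ range M, ee A e K (v + a • (K • e)) (fun p => t.1 + c p + t.2 p • e)) / M) ^ n =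
      QY A e c L (M * K) / (M : ℝ) ^ n := by
  unfold QY
  rw [sum_div]
  refine sum_congr rfl fun t _ => ?_
  rw [sum_div]
  refine sum_congr rfl fun u _ => ?_
  rw [ee_mul, div_pow]

theorem mono1 {A : G → G → ℝ} (hA : ∀ u v, 0 ≤ A u v) (e : G) (n M L K : ℕ) (hM : 0 < M) :
    QX A e (0 : Fin n → G) (M * L) K ≤ (M : ℝ) ^ n * QX A e (0 : Fin n → G) L K := by
  have hM' : (0 : ℝ) < (M : ℝ) ^ n := by positivity
  rw [← div_le_iff₀' hM', ← QX_avg, QX_zero]
  refine sum_le_sum fun t _ => ?_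
  have h := avg_pow_sum n M hM (L • e) (fun u => ff A e L u (fun q : Fin n => t.1 + t.2 q • e))
    (fun u => ff_nonneg hA _ _ _ _)
  exact h

theorem mono2 {A : G → G → ℝ} (hA : ∀ u v, 0 ≤ A u v) (e : G) {n : ℕ} (c : Fin n → G) (M L K : ℕ)
    (hM : 0 < M) : QX A e c L (M * K) ≤ (M : ℝ) ^ n * QX A e c L K := by
  have hM' : (0 : ℝ) < (M : ℝ) ^ n := by positivity
  rw [QX_eq_QY, QX_eq_QY, ← div_le_iff₀' hM', ← QY_avg]
  unfold QY
  refine sum_le_sum fun t _ => ?_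
  have h := avg_pow_sum n M hM (K • e) (fun v => ee A e K v (fun p => t.1 + c p + t.2 p • e))
    (fun u => ee_nonneg hA _ _ _ _)
  exact h

theorem upper {A : G → G → ℝ} (hA : ∀ u v, 0 ≤ A u v) (e : G) {n : ℕ} (hn : 0 < n)
    (c : Fin n → G) (L K : ℕ) : QX A e c L K ≤ QX A e (0 : Fin n → G) L K := by
  rw [QX_zero]
  unfold QX
  refine sum_le_sum fun t _ => ?_
  have h := prod_sum_le n hn c (fun u => ff A e L u (fun q : Fin n => t.1 + t.2 q • e))
    (fun u => ff_nonneg hA _ _ _ _)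
  exact h

/-- **Step lemma.** If the density of `2r × 2r` grids in windows hardly drops from length `L` to
length `M L`, then every arrangement of windows of length `L` within windows of length `M L / 2`
contains a grid. -/
theorem step {A : G → G → ℝ} (hA : ∀ u v, 0 ≤ A u v) (e : G) (r M L : ℕ) (hr : 0 < r)
    (hM : 0 < M) (κ : ℝ) (hκ : 0 < κ) (hκ2 : κ * (20000 * (r : ℝ) ^ 3) ≤ 1)
    (hpos : 0 < QX A e (0 : Fin (2 * r) → G) (M * L) (M * L))
    (hH : QX A e (0 : Fin (2 * r) → G) L L ≤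
      (1 + κ ^ 2) * QX A e (0 : Fin (2 * r) → G) (M * L) (M * L) / (M : ℝ) ^ (2 * (2 * r)))
    (a b : Fin (2 * r) → ℕ) (ha : ∀ i, 2 * a i ≤ M) (hb : ∀ i, 2 * b i ≤ M) :
    ∃ (u v : G) (I J : Fin (2 * r) → ℕ), (∀ p, I p < L) ∧ (∀ q, J q < L) ∧
      ∀ p q, 0 < A (u + a p • (L • e) + I p • e) (v + b q • (L • e) + J q • e) := by
  have hn : 0 < 2 * r := by omega
  have hr1 : (1 : ℝ) ≤ r := by exact_mod_cast hr
  have hMn : (0 : ℝ) < (M : ℝ) ^ (2 * r) := by positivity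
  have hMn2 : (M : ℝ) ^ (2 * (2 * r)) = (M : ℝ) ^ (2 * r) * (M : ℝ) ^ (2 * r) := by
    rw [two_mul (2 * r), pow_add]
  set X : ℕ → ℕ → ℝ := fun L K => QX A e (0 : Fin (2 * r) → G) L K with hX
  set c : Fin (2 * r) → G := fun p => a p • (L • e) with hc
  -- numerical facts
  have hr3 : (1 : ℝ) ≤ (r : ℝ) ^ 3 := one_le_pow₀ hr1
  have hr2 : (r : ℝ) ≤ (r : ℝ) ^ 3 := le_self_pow₀ hr1 (by norm_num)
  have hκs : κ ≤ 1 / 20000 := by nlinarith
  have hrκ : 12 * r * κ ≤ 12 / 20000 := by nlinarith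
  have hden : 0 < 1 - 12 * (r : ℝ) * κ := by linarith
  obtain ⟨κ', hκ'⟩ : ∃ κ' : ℝ, κ' = Real.sqrt ((κ ^ 2 + 12 * r * κ) / (1 - 12 * r * κ)) := ⟨_, rfl⟩
  have hfrac : 0 < (κ ^ 2 + 12 * r * κ) / (1 - 12 * r * κ) := by positivity
  have hκ'0 : 0 < κ' := by rw [hκ']; exact Real.sqrt_pos.2 hfrac
  have hκ'2 : κ' ^ 2 = (κ ^ 2 + 12 * r * κ) / (1 - 12 * r * κ) := by
    rw [hκ', Real.sq_sqrt hfrac.le]
  have hκ'3 : 1 + κ' ^ 2 = (1 + κ ^ 2) / (1 - 12 * r * κ) := by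
    rw [hκ'2, eq_div_iff hden.ne', add_mul, div_mul_cancel₀ _ hden.ne']
    ring
  have hκ'4 : 12 * r * κ' ≤ 1 / 2 := by
    have h1 : (12 * r * κ') ^ 2 ≤ (1 / 2) ^ 2 := by
      rw [mul_pow, hκ'2, mul_div_assoc', div_le_iff₀ hden]
      have h2 : κ ^ 2 ≤ r * κ := by nlinarith
      have h3 : (12 * (r : ℝ)) ^ 2 * (κ ^ 2 + 12 * r * κ) ≤ 144 * 13 * ((r : ℝ) ^ 3 * κ) := by
        nlinarith [mul_le_mul_of_nonneg_left h2 (sq_nonneg (r : ℝ))]
      nlinarith
    exact le_of_sq_le_sq h1 (by norm_num)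
  -- first direction
  have hX0 : 0 < X (M * L) (M * L) := hpos
  have hX1 : X (M * L) (M * L) ≤ (M : ℝ) ^ (2 * r) * X L (M * L) := mono1 hA e (2 * r) M L (M * L) hM
  have hX2 : X L (M * L) ≤ (M : ℝ) ^ (2 * r) * X L L := mono2 hA e 0 M L L hM
  have hX3 : X L L ≤ (1 + κ ^ 2) * X (M * L) (M * L) / (M : ℝ) ^ (2 * (2 * r)) := hH
  rw [hMn2, ← div_div] at hX3
  have hX4 : X L (M * L) ≤ (1 + κ ^ 2) * (X (M * L) (M * L) / (M : ℝ) ^ (2 * r)) := by
    refine hX2.trans ?_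
    have h1 := mul_le_mul_of_nonneg_left hX3 hMn.le
    refine h1.trans (le_of_eq ?_)
    field_simp
  have hXL : 0 < X L (M * L) := by
    by_contra hcon
    push Not at hcon
    nlinarith
  have h1 := mixed ((univ : Finset G) ×ˢ Wd (2 * r) (M * L))
    (fun t u => ff A e L u (fun q => t.1 + t.2 q • e)) (fun t u => ff_nonneg hA _ _ _ _) (L • e)
    r M hr hM κ hκ (by
      rw [QX_avg, ← QX_zero]
      exact hX4) a ha
  rw [← QX_zero] at h1
  have h1' : (1 - 12 * r * κ) * X L (M * L) ≤ QX A e c L (M * L) := h1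
  -- second direction
  have hQ0 : 0 < QX A e c L (M * L) := lt_of_lt_of_le (mul_pos hden hXL) h1'
  have hQ1 : QX A e c L L ≤ (1 + κ' ^ 2) * (QX A e c L (M * L) / (M : ℝ) ^ (2 * r)) := by
    have s1 : QX A e c L L ≤ X L L := upper hA e hn c L L
    have s2 : X (M * L) (M * L) / (M : ℝ) ^ (2 * r) ≤ X L (M * L) := by
      rw [div_le_iff₀' hMn]
      exact hX1
    have s3 : X L (M * L) ≤ QX A e c L (M * L) / (1 - 12 * r * κ) := by
      rw [le_div_iff₀' hden]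
      exact h1'
    have s4 : X L L ≤ (1 + κ ^ 2) * (X (M * L) (M * L) / (M : ℝ) ^ (2 * r)) / (M : ℝ) ^ (2 * r) := by
      refine hX3.trans (le_of_eq ?_)
      ring
    have s5 : (1 + κ ^ 2) * (X (M * L) (M * L) / (M : ℝ) ^ (2 * r)) / (M : ℝ) ^ (2 * r) ≤
        (1 + κ ^ 2) * (QX A e c L (M * L) / (1 - 12 * r * κ)) / (M : ℝ) ^ (2 * r) := by
      refine div_le_div_of_nonneg_right ?_ hMn.le
      exact mul_le_mul_of_nonneg_left (s2.trans s3) (by positivity)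
    refine (s1.trans s4).trans (s5.trans (le_of_eq ?_))
    rw [hκ'3]
    field_simp
  have h2 := mixed ((univ : Finset G) ×ˢ Wd (2 * r) L)
    (fun t v => ee A e L v (fun p => t.1 + c p + t.2 p • e)) (fun t u => ee_nonneg hA _ _ _ _)
    (L • e) r M hr hM κ' hκ'0 (by
      rw [QY_avg, ← QX_eq_QY]
      have : ∑ t ∈ (univ : Finset G) ×ˢ Wd (2 * r) L, ∑ v,
          ee A e L v (fun p => t.1 + c p + t.2 p • e) ^ (2 * r) = QX A e c L L := by
        rw [QX_eq_QY]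
        rfl
      rw [this]
      exact hQ1) b hb
  have hS2 : 0 < ∑ t ∈ (univ : Finset G) ×ˢ Wd (2 * r) L, ∑ v,
      ee A e L v (fun p => t.1 + c p + t.2 p • e) ^ (2 * r) := by
    have h3 : ∑ t ∈ (univ : Finset G) ×ˢ Wd (2 * r) L, ∑ v,
        ee A e L v (fun p => t.1 + c p + t.2 p • e) ^ (2 * r) = QX A e c L L := by
      rw [QX_eq_QY]
      rfl
    rw [h3]
    have h4 := mono2 hA e c M L L hM
    by_contra hcon
    push Not at hcon
    nlinarith
  have h5 : 0 < ∑ t ∈ (univ : Finset G) ×ˢ Wd (2 * r) L, ∑ v,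
      ∏ q, ee A e L (v + b q • (L • e)) (fun p => t.1 + c p + t.2 p • e) := by
    refine lt_of_lt_of_le (mul_pos ?_ hS2) h2
    linarith
  obtain ⟨t, ht, h6⟩ := exists_lt_of_sum_lt (s := (univ : Finset G) ×ˢ Wd (2 * r) L)
    (f := fun _ => (0 : ℝ)) (by simpa using h5)
  obtain ⟨v, _, h7⟩ := exists_lt_of_sum_lt (s := (univ : Finset G))
    (f := fun _ => (0 : ℝ)) (by simpa using h6)
  have h8 : ∀ q, 0 < ee A e L (v + b q • (L • e)) (fun p => t.1 + c p + t.2 p • e) := by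
    intro q
    refine lt_of_le_of_ne (ee_nonneg hA _ _ _ _) fun h => ?_
    have : ∏ q, ee A e L (v + b q • (L • e)) (fun p => t.1 + c p + t.2 p • e) = 0 :=
      prod_eq_zero (mem_univ q) h.symm
    rw [this] at h7
    exact lt_irrefl _ h7
  have h9 : ∀ q, ∃ j, j < L ∧ ∀ p, 0 < A (t.1 + c p + t.2 p • e) (v + b q • (L • e) + j • e) := by
    intro q
    have h10 := h8 q
    unfold ee at h10
    obtain ⟨j, hj, h11⟩ := exists_lt_of_sum_lt (s := range L)
      (f := fun _ => (0 : ℝ)) (by simpa using h10)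
    refine ⟨j, mem_range.1 hj, fun p => lt_of_le_of_ne (hA _ _) fun h => ?_⟩
    have : ∏ p, A (t.1 + c p + t.2 p • e) (v + b q • (L • e) + j • e) = 0 :=
      prod_eq_zero (mem_univ p) h.symm
    rw [this] at h11
    exact lt_irrefl _ h11
  choose J hJ hJ2 using h9
  rw [mem_product] at ht
  have hI : ∀ p, t.2 p < L := fun p => mem_range.1 (Fintype.mem_piFinset.1 ht.2 p)
  exact ⟨t.1, v, t.2, J, hI, hJ, fun p q => hJ2 q p⟩

end Pool.Agent.Helper52.NG
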