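import Pool.Agent.Helper52.NG.Ker

/-!
# The number of bad scales
-/

namespace Pool.Agent.Helper52.NG

open Finset

theorem chain (R : ℕ → ℝ) (hR : ∀ i, R (i + 1) ≤ R i) (c : ℝ) (hc : 1 ≤ c)
    (k : ℕ) : c ^ ((range k).filter (fun i => c * R (i + 1) < R i)).card * R k ≤ R 0 := by
  induction k with
  | zero => simp
  | succ k ih =>
    rw [range_add_one, filter_insert]
    have hc0 : 0 < c := by linarith
    set B := (range k).filter (fun i => c * R (i + 1) < R i) with hB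
    have hp : (0 : ℝ) ≤ c ^ B.card := by positivity
    split_ifs with h
    · rw [card_insert_of_notMem (by simp [hB]), pow_succ, mul_assoc]
      exact (mul_le_mul_of_nonneg_left h.le hp).trans ih
    · exact (mul_le_mul_of_nonneg_left (hR k) hp).trans ih

/-- power mean inequality over a finite set -/
theorem pm {ι : Type*} (s : Finset ι) (hs : s.Nonempty) (n : ℕ) (z : ι → ℝ) (hz : ∀ i, 0 ≤ z i) :
    (s.card : ℝ) * ((∑ i ∈ s, z i) / s.card) ^ n ≤ ∑ i ∈ s, z i ^ n := by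
  have hc : (0 : ℝ) < s.card := by exact_mod_cast hs.card_pos
  have h := Real.pow_arith_mean_le_arith_mean_pow s (fun _ => 1 / (s.card : ℝ)) z
    (fun i _ => by positivity) (by
      rw [sum_const, nsmul_eq_mul]
      field_simp) (fun i _ => hz i) n
  have e1 : ∑ i ∈ s, 1 / (s.card : ℝ) * z i = (∑ i ∈ s, z i) / s.card := by
    rw [← mul_sum]
    ring
  have e2 : ∑ i ∈ s, 1 / (s.card : ℝ) * z i ^ n = (∑ i ∈ s, z i ^ n) / s.card := by
    rw [← mul_sum]
    ring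
  rw [e1, e2, le_div_iff₀' hc] at h
  exact h

variable {G : Type*} [AddCommGroup G] [Fintype G]

theorem card_Wd (n L : ℕ) : (Wd n L).card = L ^ n := by
  unfold Wd
  rw [Fintype.card_piFinset, prod_const, card_range, card_univ, Fintype.card_fin]

theorem lower {A : G → G → ℝ} (hA : ∀ u v, 0 ≤ A u v) (e : G) (n K : ℕ) (hK : 0 < K) (α : ℝ)
    (hα : ∑ u, ∑ v, A u v = α * (Fintype.card G : ℝ) ^ 2) :
    (Fintype.card G : ℝ) ^ 2 * (K : ℝ) ^ (2 * n) * α ^ (n * n) ≤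
      QX A e (0 : Fin n → G) K K := by
  have hG : (0 : ℝ) < Fintype.card G := by exact_mod_cast Fintype.card_pos
  have hK' : (0 : ℝ) < K := by exact_mod_cast hK
  have hα0 : 0 ≤ α := by
    have h1 : 0 ≤ ∑ u, ∑ v, A u v := sum_nonneg fun u _ => sum_nonneg fun v _ => hA u v
    rw [hα] at h1
    exact (mul_nonneg_iff_of_pos_right (by positivity)).1 h1
  rw [QX_zero]
  -- the first sum
  have h1 : ∑ t ∈ (univ : Finset G) ×ˢ Wd n K, ∑ u, ff A e K u (fun q => t.1 + t.2 q • e) =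
      ∑ x ∈ ((univ : Finset G) ×ˢ (univ : Finset G)) ×ˢ range K,
        (∑ j ∈ range K, A (x.1.1 + x.2 • e) (x.1.2 + j • e)) ^ n := by
    have h2 : ∀ (u v : G) (i : ℕ), (∑ j ∈ range K, A (u + i • e) (v + j • e)) ^ n =
        ∑ J ∈ Wd n K, ∏ q, A (u + i • e) (v + J q • e) := by
      intro u v i
      have h3 : (∑ j ∈ range K, A (u + i • e) (v + j • e)) ^ n =
          ∏ _q : Fin n, ∑ j ∈ range K, A (u + i • e) (v + j • e) := by
        rw [prod_const, card_univ, Fintype.card_fin]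
      rw [h3]
      unfold Wd
      rw [prod_univ_sum]
    rw [sum_product, sum_product, sum_product]
    simp only [h2]
    unfold ff
    calc ∑ v, ∑ J ∈ Wd n K, ∑ u, ∑ i ∈ range K, ∏ q, A (u + i • e) (v + J q • e)
        = ∑ v, ∑ u, ∑ J ∈ Wd n K, ∑ i ∈ range K, ∏ q, A (u + i • e) (v + J q • e) :=
          sum_congr rfl fun v _ => sum_comm
      _ = ∑ u, ∑ v, ∑ J ∈ Wd n K, ∑ i ∈ range K, ∏ q, A (u + i • e) (v + J q • e) := sum_comm
      _ = _ := sum_congr rfl fun u _ => sum_congr rfl fun v _ => sum_comm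
  have hne2 : (((univ : Finset G) ×ˢ (univ : Finset G)) ×ˢ range K).Nonempty := by
    refine ⟨((0, 0), 0), ?_⟩
    simp [hK]
  have h4 := pm (((univ : Finset G) ×ˢ (univ : Finset G)) ×ˢ range K) hne2 n
    (fun x => ∑ j ∈ range K, A (x.1.1 + x.2 • e) (x.1.2 + j • e))
    (fun x => sum_nonneg fun j _ => hA _ _)
  have h5 : ∑ x ∈ ((univ : Finset G) ×ˢ (univ : Finset G)) ×ˢ range K,
      ∑ j ∈ range K, A (x.1.1 + x.2 • e) (x.1.2 + j • e) =
      (K : ℝ) ^ 2 * (α * (Fintype.card G : ℝ) ^ 2) := by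
    rw [sum_product, sum_product]
    calc ∑ u : G, ∑ v : G, ∑ i ∈ range K, ∑ j ∈ range K, A (u + i • e) (v + j • e)
        = ∑ u : G, ∑ i ∈ range K, ∑ v : G, ∑ j ∈ range K, A (u + i • e) (v + j • e) :=
          sum_congr rfl fun u _ => sum_comm
      _ = ∑ i ∈ range K, ∑ u : G, ∑ v : G, ∑ j ∈ range K, A (u + i • e) (v + j • e) := sum_comm
      _ = ∑ i ∈ range K, ∑ u : G, ∑ j ∈ range K, ∑ v : G, A (u + i • e) (v + j • e) :=
          sum_congr rfl fun i _ => sum_congr rfl fun u _ => sum_comm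
      _ = ∑ i ∈ range K, ∑ u : G, ∑ j ∈ range K, ∑ v : G, A (u + i • e) v :=
          sum_congr rfl fun i _ => sum_congr rfl fun u _ => sum_congr rfl fun j _ =>
            sum_shift (fun v => A (u + i • e) v) (j • e)
      _ = ∑ i ∈ range K, ∑ u : G, (K : ℝ) * ∑ v : G, A (u + i • e) v := by
          refine sum_congr rfl fun i _ => sum_congr rfl fun u _ => ?_
          rw [sum_const, card_range, nsmul_eq_mul]
      _ = ∑ i ∈ range K, ∑ u : G, (K : ℝ) * ∑ v : G, A u v :=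
          sum_congr rfl fun i _ => sum_shift (fun u => (K : ℝ) * ∑ v : G, A u v) (i • e)
      _ = _ := by
          rw [sum_const, card_range, nsmul_eq_mul, ← mul_sum, hα]
          ring
  have hc2 : ((((univ : Finset G) ×ˢ (univ : Finset G)) ×ˢ range K).card : ℝ) =
      (Fintype.card G : ℝ) ^ 2 * K := by
    rw [card_product, card_product, card_univ, card_range]
    push_cast
    ring
  rw [← h1, h5, hc2] at h4
  have h6 : (K : ℝ) ^ 2 * (α * (Fintype.card G : ℝ) ^ 2) / ((Fintype.card G : ℝ) ^ 2 * K) =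
      K * α := by
    field_simp
  rw [h6] at h4
  -- the second sum
  have hne1 : ((((univ : Finset G) ×ˢ Wd n K)) ×ˢ (univ : Finset G)).Nonempty := by
    refine ⟨((0, fun _ => 0), 0), ?_⟩
    simp [Wd, hK]
  have h7 := pm ((((univ : Finset G) ×ˢ Wd n K)) ×ˢ (univ : Finset G)) hne1 n
    (fun x => ff A e K x.2 (fun q => x.1.1 + x.1.2 q • e))
    (fun x => ff_nonneg hA _ _ _ _)
  have hc1 : (((((univ : Finset G) ×ˢ Wd n K)) ×ˢ (univ : Finset G)).card : ℝ) =
      (Fintype.card G : ℝ) ^ 2 * (K : ℝ) ^ n := by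
    rw [card_product, card_product, card_Wd, card_univ]
    push_cast
    ring
  have p1 : ∑ x ∈ (((univ : Finset G) ×ˢ Wd n K)) ×ˢ (univ : Finset G),
      ff A e K x.2 (fun q => x.1.1 + x.1.2 q • e) =
      ∑ t ∈ (univ : Finset G) ×ˢ Wd n K, ∑ u, ff A e K u (fun q => t.1 + t.2 q • e) :=
    sum_product _ _ _
  have p2 : ∑ x ∈ (((univ : Finset G) ×ˢ Wd n K)) ×ˢ (univ : Finset G),
      ff A e K x.2 (fun q => x.1.1 + x.1.2 q • e) ^ n =
      ∑ t ∈ (univ : Finset G) ×ˢ Wd n K, ∑ u, ff A e K u (fun q => t.1 + t.2 q • e) ^ n :=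
    sum_product _ _ _
  rw [hc1, p1, p2] at h7
  refine le_trans ?_ h7
  have h8 : (K : ℝ) * α ^ n ≤ (∑ t ∈ (univ : Finset G) ×ˢ Wd n K, ∑ u,
      ff A e K u (fun q => t.1 + t.2 q • e)) / ((Fintype.card G : ℝ) ^ 2 * (K : ℝ) ^ n) := by
    rw [le_div_iff₀ (by positivity)]
    refine le_trans (le_of_eq ?_) h4
    rw [mul_pow]
    ring
  have h9 : ((K : ℝ) * α ^ n) ^ n ≤ ((∑ t ∈ (univ : Finset G) ×ˢ Wd n K, ∑ u,
      ff A e K u (fun q => t.1 + t.2 q • e)) / ((Fintype.card G : ℝ) ^ 2 * (K : ℝ) ^ n)) ^ n :=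
    pow_le_pow_left₀ (by positivity) h8 n
  refine le_trans (le_of_eq ?_) (mul_le_mul_of_nonneg_left h9 (by positivity))
  rw [mul_pow, ← pow_mul, two_mul, pow_add]
  ring

theorem at_one {A : G → G → ℝ} (hA : ∀ u v, 0 ≤ A u v) (hA1 : ∀ u v, A u v ≤ 1) (e : G) (n : ℕ)
    (hn : 0 < n) : QX A e (0 : Fin n → G) 1 1 ≤ ∑ u, ∑ v, A u v := by
  rw [QX_zero]
  have h1 : Wd n 1 = {fun _ => 0} := by
    unfold Wd
    ext f
    simp only [Fintype.mem_piFinset, range_one, mem_singleton]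
    exact ⟨fun h => funext h, fun h a => congrFun h a⟩
  rw [h1, sum_product, sum_comm]
  rw [sum_singleton, sum_comm]
  refine sum_le_sum fun u _ => sum_le_sum fun v _ => ?_
  unfold ff
  simp only [range_one, sum_singleton, zero_smul, add_zero, prod_const, card_univ,
    Fintype.card_fin]
  rw [← pow_mul]
  exact pow_le_of_le_one (hA _ _) (hA1 _ _) (by positivity)

/-- **Good scales.** -/
theorem good {A : G → G → ℝ} (hA : ∀ u v, 0 ≤ A u v) (hA1 : ∀ u v, A u v ≤ 1) (e : G)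
    (r M : ℕ) (hr : 0 < r) (hM : 0 < M) (κ : ℝ) (hκ : 0 < κ)
    (hκ2 : κ * (20000 * (r : ℝ) ^ 3) ≤ 1) (α : ℝ) (hα0 : 0 < α)
    (hα : ∑ u, ∑ v, A u v = α * (Fintype.card G : ℝ) ^ 2) (k : ℕ) :
    ∃ B : Finset ℕ, B ⊆ range k ∧ (1 + κ ^ 2) ^ B.card * α ^ ((2 * r) * (2 * r)) ≤ α ∧
      ∀ i ∈ range k, i ∉ B → ∀ a b : Fin (2 * r) → ℕ, (∀ i, 2 * a i ≤ M) → (∀ i, 2 * b i ≤ M) →
        ∃ (u v : G) (I J : Fin (2 * r) → ℕ), (∀ p, I p < M ^ i) ∧ (∀ q, J q < M ^ i) ∧
          ∀ p q, 0 < A (u + a p • (M ^ i • e) + I p • e) (v + b q • (M ^ i • e) + J q • e) := by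
  have hG : (0 : ℝ) < Fintype.card G := by exact_mod_cast Fintype.card_pos
  have hM' : (0 : ℝ) < M := by exact_mod_cast hM
  obtain ⟨R, hR⟩ : ∃ R : ℕ → ℝ, ∀ i, R i =
      QX A e (0 : Fin (2 * r) → G) (M ^ i) (M ^ i) / ((M : ℝ) ^ (2 * (2 * r))) ^ i :=
    ⟨_, fun i => rfl⟩
  have hMp : (0 : ℝ) < (M : ℝ) ^ (2 * (2 * r)) := by positivity
  have hlow : ∀ i, (Fintype.card G : ℝ) ^ 2 * α ^ ((2 * r) * (2 * r)) ≤ R i := by
    intro i
    rw [hR, le_div_iff₀ (by positivity)]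
    have h := lower hA e (2 * r) (M ^ i) (by positivity) α hα
    refine le_trans (le_of_eq ?_) h
    rw [Nat.cast_pow, ← pow_mul, ← pow_mul, mul_comm i (2 * (2 * r))]
    ring
  have hRpos : ∀ i, 0 < R i := fun i => lt_of_lt_of_le (by positivity) (hlow i)
  have hanti : ∀ i, R (i + 1) ≤ R i := by
    intro i
    rw [hR, hR, div_le_iff₀ (by positivity), pow_succ (((M : ℝ) ^ (2 * (2 * r)))) i, pow_succ' M i]
    have h1 := mono1 hA e (2 * r) M (M ^ i) (M * M ^ i) hM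
    have h2 := mono2 hA e (0 : Fin (2 * r) → G) M (M ^ i) (M ^ i) hM
    have h3 := mul_le_mul_of_nonneg_left h2 (by positivity : (0 : ℝ) ≤ (M : ℝ) ^ (2 * r))
    refine (h1.trans h3).trans (le_of_eq ?_)
    rw [two_mul (2 * r), pow_add]
    field_simp
  have h0 : R 0 ≤ α * (Fintype.card G : ℝ) ^ 2 := by
    rw [hR, pow_zero, pow_zero, div_one, ← hα]
    exact at_one hA hA1 e (2 * r) (by omega)
  have hc := chain R hanti (1 + κ ^ 2) (by nlinarith [sq_nonneg κ]) k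
  refine ⟨(range k).filter (fun i => (1 + κ ^ 2) * R (i + 1) < R i), filter_subset _ _, ?_, ?_⟩
  · have h1 := mul_le_mul_of_nonneg_left (hlow k)
      (by positivity : (0 : ℝ) ≤ (1 + κ ^ 2) ^
        ((range k).filter (fun i => (1 + κ ^ 2) * R (i + 1) < R i)).card)
    have h2 := (h1.trans hc).trans h0
    have h3 : (0 : ℝ) < (Fintype.card G : ℝ) ^ 2 := by positivity
    have h4 : (Fintype.card G : ℝ) ^ 2 * ((1 + κ ^ 2) ^
        ((range k).filter (fun i => (1 + κ ^ 2) * R (i + 1) < R i)).card *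
          α ^ ((2 * r) * (2 * r))) ≤ (Fintype.card G : ℝ) ^ 2 * α := by linarith
    exact le_of_mul_le_mul_left h4 h3
  · intro i hi hiB a b ha hb
    have hgood : R i ≤ (1 + κ ^ 2) * R (i + 1) := by
      by_contra hcon
      push Not at hcon
      exact hiB (mem_filter.2 ⟨hi, hcon⟩)
    refine step hA e r M (M ^ i) hr hM κ hκ hκ2 ?_ ?_ a b ha hb
    · have h1 := hRpos (i + 1)
      rw [hR, pow_succ' M i] at h1
      by_contra hcon
      push Not at hcon
      exact absurd h1 (not_lt.2 (div_nonpos_of_nonpos_of_nonneg hcon (by positivity)))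
    · rw [hR, hR, pow_succ' M i, div_le_iff₀ (by positivity),
        pow_succ (((M : ℝ) ^ (2 * (2 * r)))) i] at hgood
      refine hgood.trans (le_of_eq ?_)
      field_simp

end Pool.Agent.Helper52.NG
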