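import Pool.Agent.Helper52.NG.Sum

/-!
# Near grids in sets with divergent sums
-/

namespace Pool.Agent.Helper52.NG

open Finset

theorem log_le_two_sqrt {x : ℝ} (hx : 0 < x) : Real.log x ≤ 2 * Real.sqrt x := by
  have h1 : Real.log (Real.sqrt x) ≤ Real.sqrt x - 1 :=
    Real.log_le_sub_one_of_pos (Real.sqrt_pos.2 hx)
  rw [Real.log_sqrt hx.le] at h1
  linarith

theorem jl (X : ℝ) : ∃ j0 : ℕ, 3 ≤ j0 ∧ ∀ j : ℕ, j0 ≤ j → X ≤ j / Real.log j := by
  obtain ⟨n, hn⟩ := exists_nat_ge (4 * X ^ 2)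
  refine ⟨n + 3, by omega, fun j hj => ?_⟩
  have hj3 : (3 : ℝ) ≤ j := by exact_mod_cast (by omega : 3 ≤ j)
  have hjn : (n : ℝ) ≤ j := by exact_mod_cast (by omega : n ≤ j)
  have hlog : 0 < Real.log j := Real.log_pos (by linarith)
  rw [le_div_iff₀ hlog]
  have h1 := log_le_two_sqrt (by linarith : (0 : ℝ) < j)
  have h2 : 2 * X ≤ Real.sqrt j := by
    apply Real.le_sqrt_of_sq_le
    nlinarith
  have h3 : Real.sqrt j * Real.sqrt j = j := Real.mul_self_sqrt (by linarith)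
  rcases le_or_gt X 0 with hX | hX
  · nlinarith [mul_nonneg (neg_nonneg.2 hX) hlog.le]
  · nlinarith [Real.sqrt_nonneg (j : ℝ)]

theorem tl {t j : ℝ} (ht : 2 ≤ t) (htj : t ≤ j) : t / Real.log t ≤ 4 * (j / Real.log j) := by
  have hlt : 1 / 2 ≤ Real.log t := by
    have h1 : Real.log 2 ≤ Real.log t := Real.log_le_log (by norm_num) ht
    linarith [Real.log_two_gt_d9]
  have hlj : 0 < Real.log j := Real.log_pos (by linarith)
  have hj0 : 0 < j := by linarith
  rw [div_le_iff₀ (by linarith), mul_div_assoc', div_mul_eq_mul_div, le_div_iff₀ hlj]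
  have hs : Real.sqrt j * Real.sqrt j = j := Real.mul_self_sqrt hj0.le
  have hs0 : 0 < Real.sqrt j := Real.sqrt_pos.2 hj0
  rcases le_total (Real.sqrt j) t with h | h
  · have h1 : Real.log j ≤ 2 * Real.log t := by
      have h2 := Real.log_le_log hs0 h
      rw [Real.log_sqrt hj0.le] at h2
      linarith
    calc t * Real.log j ≤ j * (2 * Real.log t) :=
          mul_le_mul htj h1 hlj.le hj0.le
      _ ≤ 4 * j * Real.log t := by nlinarith [mul_pos hj0 (by linarith : 0 < Real.log t)]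
  · have h1 := log_le_two_sqrt hj0
    calc t * Real.log j ≤ Real.sqrt j * (2 * Real.sqrt j) :=
          mul_le_mul h h1 hlj.le hs0.le
      _ = 2 * j := by nlinarith
      _ ≤ 4 * j * Real.log t := by nlinarith

theorem near_div (m : ℕ) (hm : 0 < m) : ∃ c : ℝ, 0 < c ∧ ∀ A : Set (ℕ × ℕ),
    (∀ p ∈ A, 0 < p.1 ∧ 0 < p.2) →
      ¬ Summable (fun p : A => 1 / ((p.1.1 : ℝ) ^ 2 + (p.1.2 : ℝ) ^ 2)) →
        ∀ D : ℕ, ∃ d : ℕ, D ≤ d ∧
          NearGrid A m d ((d : ℝ) ^ (1 - c / Real.log (Real.log d))) := by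
  obtain ⟨C, hC, hbox⟩ := box_grid m hm
  obtain ⟨K, hK⟩ : ∃ K : ℝ, K = 3 * C + 1 := ⟨_, rfl⟩
  have hK1 : 1 < K := by rw [hK]; linarith
  refine ⟨1 / (16 * K), by positivity, ?_⟩
  intro A hA hns D
  have hm1 : (1 : ℝ) ≤ m := by exact_mod_cast hm
  have hl8 : 0 < Real.log (8 * m) := Real.log_pos (by linarith)
  obtain ⟨j0, hj03, hj0⟩ := jl (4 * K * (1 + Real.log (8 * m)) + 4 * K * (2 + Real.log (D + 1)))
  have hns' : ¬ Summable (fun p : A => 1 / ((p.1.1 : ℝ) ^ 2 + (p.1.2 : ℝ) ^ 2) ^ (1 : ℝ)) := by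
    simpa only [Real.rpow_one] using hns
  obtain ⟨j, hj, hcard⟩ := freq A hA 1 (by norm_num) le_rfl (fun j => 1 / (j : ℝ) ^ 2)
    (fun j => by positivity) (Real.summable_one_div_nat_pow.2 (by norm_num)) hns' j0
  rw [Real.rpow_one] at hcard
  have hX := hj0 j hj
  have hj3 : (3 : ℝ) ≤ j := by exact_mod_cast (by omega : 3 ≤ j)
  have hjpos : (0 : ℝ) < j := by linarith
  have hlogj1 : 1 ≤ Real.log j := by
    rw [Real.le_log_iff_exp_le hjpos]
    linarith [Real.exp_one_lt_d9]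
  have hlogj : 0 < Real.log j := by linarith
  have hlD : 0 ≤ Real.log ((D : ℝ) + 1) := Real.log_nonneg (by
    have : (0 : ℝ) ≤ (D : ℝ) := by positivity
    linarith)
  -- the number of scales
  obtain ⟨T, hT⟩ : ∃ T : ℝ, T = C * Real.log (2 / (1 / (j : ℝ) ^ 2)) := ⟨_, rfl⟩
  have hT0 : 0 ≤ T := by
    rw [hT]
    apply mul_nonneg hC.le
    apply Real.log_nonneg
    rw [div_div_eq_mul_div, div_one]
    nlinarith
  have hTle : T ≤ 3 * C * Real.log j := by
    rw [hT]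
    have h1 : 2 / (1 / (j : ℝ) ^ 2) ≤ (j : ℝ) ^ 3 := by
      rw [div_div_eq_mul_div, div_one, pow_succ (j : ℝ) 2]
      nlinarith [sq_nonneg (j : ℝ)]
    have h2 := Real.log_le_log (by positivity) h1
    rw [Real.log_pow] at h2
    push_cast at h2
    nlinarith
  obtain ⟨k, hk⟩ : ∃ k : ℕ, k = ⌊T⌋₊ + 1 := ⟨_, rfl⟩
  have hkT : T < k := by
    rw [hk]
    push_cast
    exact Nat.lt_floor_add_one T
  have hkle : (k : ℝ) ≤ K * Real.log j := by
    rw [hk, hK]
    push_cast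
    have h1 := Nat.floor_le hT0
    nlinarith
  have hk0 : 0 < k := by omega
  have hkR : (0 : ℝ) < k := by exact_mod_cast hk0
  obtain ⟨μ, hμ⟩ : ∃ μ, μ = j / k := ⟨_, rfl⟩
  have hμk : μ * k ≤ j := by rw [hμ]; exact Nat.div_mul_le_self j k
  have hjk : (j : ℝ) / (K * Real.log j) ≤ j / k := by
    apply div_le_div_of_nonneg_left hjpos.le hkR hkle
  have hμlow : (j : ℝ) / k - 1 < μ := by
    have h1 : j < (μ + 1) * k := by
      rw [hμ]
      have := Nat.lt_div_mul_add (a := j) hk0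
      rw [add_mul, one_mul]
      omega
    have h2 : (j : ℝ) < (μ + 1) * k := by exact_mod_cast h1
    have h3 : (j : ℝ) / k < μ + 1 := by
      rw [div_lt_iff₀ hkR]
      exact h2
    linarith
  have hjlog : (j : ℝ) / Real.log j = K * (j / (K * Real.log j)) := by
    field_simp
  obtain ⟨Y, hY⟩ : ∃ Y : ℝ, Y = j / (K * Real.log j) := ⟨_, rfl⟩
  rw [hjlog, ← hY] at hX
  rw [← hY] at hjk
  have hKpos : 0 < K := by linarith
  have hY1 : 4 * (1 + Real.log (8 * m)) + 4 * (2 + Real.log (D + 1)) ≤ Y := by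
    have h1 : K * (4 * (1 + Real.log (8 * m)) + 4 * (2 + Real.log (D + 1))) ≤ K * Y := by
      linarith
    exact le_of_mul_le_mul_left h1 hKpos
  have hμY : Y - 1 < μ := by linarith
  have hlog2 := Real.log_two_gt_d9
  have hlog2' := Real.log_two_lt_d9
  have hYpos : 0 < Y := by linarith
  have hμlog : Y / 2 - 1 ≤ μ * Real.log 2 := by nlinarith
  -- size of M
  have hM4 : 4 * m ≤ 2 ^ μ := by
    have h1 : Real.log (8 * m) ≤ Real.log ((2 : ℝ) ^ μ) := by
      rw [Real.log_pow]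
      linarith
    have h2 := (Real.log_le_log_iff (by positivity) (by positivity)).1 h1
    have h3 : ((8 * m : ℕ) : ℝ) ≤ ((2 ^ μ : ℕ) : ℝ) := by
      push_cast
      exact h2
    have h4 : 8 * m ≤ 2 ^ μ := by exact_mod_cast h3
    omega
  obtain ⟨i, _, hik, hgrid⟩ := hbox A j μ k 0 (1 / (j : ℝ) ^ 2) (by positivity) hcard.le hM4 hμk
    (by omega) (by
      rw [← hT]
      push_cast
      linarith)
  obtain ⟨h, hh⟩ : ∃ h, h = 2 ^ μ / (4 * m) := ⟨_, rfl⟩
  rw [← hh] at hgrid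
  have hh1 : 1 ≤ h := by
    rw [hh, Nat.le_div_iff_mul_le (by omega)]
    omega
  have hhlow : (2 : ℝ) ^ μ ≤ 8 * m * h := by
    have h1 : 2 ^ μ < 4 * m * (h + 1) := by
      rw [hh]
      exact Nat.lt_mul_div_succ _ (by omega)
    have h2 : 4 * m * (h + 1) ≤ 8 * m * h := by nlinarith
    have h3 : ((2 ^ μ : ℕ) : ℝ) ≤ ((8 * m * h : ℕ) : ℝ) := by exact_mod_cast (h1.le.trans h2)
    push_cast at h3
    exact h3
  have hhpos : (0 : ℝ) < h := by exact_mod_cast hh1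
  have hlogh : Y / 4 ≤ Real.log h := by
    have h1 := Real.log_le_log (by positivity) hhlow
    rw [Real.log_pow, Real.log_mul (by positivity) (by positivity)] at h1
    linarith
  obtain ⟨d, hd⟩ : ∃ d : ℕ, d = h * (2 ^ μ) ^ i := ⟨_, rfl⟩
  have hMi : 1 ≤ (2 ^ μ) ^ i := Nat.one_le_pow _ _ (by positivity)
  have hhd : h ≤ d := by
    rw [hd]
    exact Nat.le_mul_of_pos_right h hMi
  have hhdR : (h : ℝ) ≤ d := by exact_mod_cast hhd
  have hdpos : (0 : ℝ) < d := by linarith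
  refine ⟨d, ?_, ?_⟩
  · have h1 : Real.log ((D : ℝ) + 1) ≤ Real.log h := by linarith
    have h2 := (Real.log_le_log_iff (by positivity) hhpos).1 h1
    have h3 : (D : ℝ) ≤ h := by linarith
    have h4 : D ≤ h := by exact_mod_cast h3
    exact h4.trans hhd
  · rw [← hd] at hgrid
    refine hgrid.mono ?_
    have hdle : (d : ℝ) ≤ (2 : ℝ) ^ j := by
      have h1 : d ≤ 2 ^ j := by
        have h2 : h ≤ 2 ^ μ := by
          rw [hh]
          exact Nat.div_le_self _ _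
        calc d ≤ 2 ^ μ * (2 ^ μ) ^ i := by
              rw [hd]
              exact Nat.mul_le_mul_right _ h2
          _ = 2 ^ (μ * (i + 1)) := by rw [← pow_succ', ← pow_mul]
          _ ≤ 2 ^ (μ * k) := Nat.pow_le_pow_right (by norm_num) (Nat.mul_le_mul_left μ (by omega))
          _ ≤ 2 ^ j := Nat.pow_le_pow_right (by norm_num) hμk
      exact_mod_cast h1
    have hlogd : Real.log d ≤ j := by
      have h1 := Real.log_le_log hdpos hdle
      rw [Real.log_pow] at h1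
      have h2 : (j : ℝ) * Real.log 2 ≤ j * 1 :=
        mul_le_mul_of_nonneg_left (by linarith only [hlog2']) hjpos.le
      linarith only [h1, h2]
    have hlogd2 : 2 ≤ Real.log d := by
      have h1 := Real.log_le_log hhpos hhdR
      linarith only [h1, hlogh, hY1, hlD, hl8]
    have h5 := tl hlogd2 hlogd
    have hll : 0 < Real.log (Real.log d) := Real.log_pos (by linarith)
    have h6 : 1 / (16 * K) * (Real.log d / Real.log (Real.log d)) ≤ Real.log h := by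
      have h7 : 1 / (16 * K) * (Real.log d / Real.log (Real.log d)) ≤
          1 / (16 * K) * (4 * (j / Real.log j)) :=
        mul_le_mul_of_nonneg_left h5 (by positivity)
      refine h7.trans ?_
      have h8 : 1 / (16 * K) * (4 * ((j : ℝ) / Real.log j)) = Y / 4 := by
        rw [hjlog, ← hY]
        field_simp
        norm_num
      rw [h8]
      exact hlogh
    have h9 : (d : ℝ) = h * (((2 ^ μ) ^ i : ℕ) : ℝ) := by
      rw [hd]
      push_cast
      ring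
    have h10 : (d : ℝ) ^ (1 / (16 * K) / Real.log (Real.log d)) ≤ h := by
      rw [Real.rpow_def_of_pos hdpos, ← Real.le_log_iff_exp_le hhpos]
      refine le_trans (le_of_eq ?_) h6
      ring
    rw [Real.rpow_sub hdpos, Real.rpow_one, le_div_iff₀ (Real.rpow_pos_of_pos hdpos _)]
    have h11 : (0 : ℝ) ≤ (((2 ^ μ) ^ i : ℕ) : ℝ) := by positivity
    calc (((2 ^ μ) ^ i : ℕ) : ℝ) * (d : ℝ) ^ (1 / (16 * K) / Real.log (Real.log d))
        ≤ (((2 ^ μ) ^ i : ℕ) : ℝ) * h := mul_le_mul_of_nonneg_left h10 h11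
      _ = d := by rw [h9]; ring

theorem near_eps (m : ℕ) (hm : 0 < m) (ε : ℝ) (hε : 0 < ε) : ∃ c : ℝ, 0 < c ∧ c < 1 ∧
    ∀ A : Set (ℕ × ℕ), (∀ p ∈ A, 0 < p.1 ∧ 0 < p.2) →
      ¬ Summable (fun p : A => 1 / ((p.1.1 : ℝ) ^ 2 + (p.1.2 : ℝ) ^ 2) ^ (1 - c)) →
        ∀ D : ℕ, ∃ d : ℕ, D ≤ d ∧ NearGrid A m d (ε * d) := by
  obtain ⟨C, hC, hbox⟩ := box_grid m hm
  have hm1 : (1 : ℝ) ≤ m := by exact_mod_cast hm
  obtain ⟨μ, hμ⟩ := pow_unbounded_of_one_lt (8 * m * (1 / ε + 1)) (by norm_num : (1 : ℝ) < 2)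
  have hε1 : 0 < 1 / ε := by positivity
  have h8 : (8 * m : ℝ) ≤ 2 ^ μ := by nlinarith
  have hM8 : 8 * m ≤ 2 ^ μ := by exact_mod_cast h8
  have hμ0 : 0 < μ := by
    rcases Nat.eq_zero_or_pos μ with h | h
    · rw [h, pow_zero] at hM8
      omega
    · exact h
  have hμR : (0 : ℝ) < μ := by exact_mod_cast hμ0
  obtain ⟨c, hc⟩ : ∃ c : ℝ, c = min (1 / 2) (1 / (6 * (C + 1) * μ)) := ⟨_, rfl⟩
  have hc0 : 0 < c := by rw [hc]; exact lt_min (by norm_num) (by positivity)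
  have hc1 : c ≤ 1 / 2 := by rw [hc]; exact min_le_left _ _
  have hc2 : c ≤ 1 / (6 * (C + 1) * μ) := by rw [hc]; exact min_le_right _ _
  refine ⟨c, hc0, by linarith, ?_⟩
  intro A hA hns D
  obtain ⟨r, hr⟩ : ∃ r : ℝ, r = (2 : ℝ) ^ (-c) := ⟨_, rfl⟩
  have hr0 : 0 < r := by rw [hr]; exact Real.rpow_pos_of_pos (by norm_num) _
  have hr1 : r < 1 := by
    rw [hr]
    exact Real.rpow_lt_one_of_one_lt_of_neg (by norm_num) (by linarith)
  obtain ⟨j0, hj0⟩ := exists_nat_gt (2 * μ * (C + D + 1))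
  obtain ⟨j, hj, hcard⟩ := freq A hA (1 - c) (by linarith) (by linarith) (fun j => r ^ j)
    (fun j => by positivity) (summable_geometric_of_lt_one hr0.le hr1) hns j0
  have hjj : 2 * μ * (C + D + 1) < j := by
    have : (j0 : ℝ) ≤ j := by exact_mod_cast hj
    linarith
  obtain ⟨δ, hδ⟩ : ∃ δ : ℝ, δ = (2 : ℝ) ^ (-(3 * c * j)) := ⟨_, rfl⟩
  have hδ0 : 0 < δ := by rw [hδ]; exact Real.rpow_pos_of_pos (by norm_num) _
  have hδcard : δ * ((2 : ℝ) ^ j) ^ 2 ≤ (bx A j).card := by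
    refine le_trans (le_of_eq ?_) hcard.le
    have e1 : ((2 : ℝ) ^ j) ^ 2 = (2 : ℝ) ^ (2 * (j : ℝ)) := by
      rw [← pow_mul, ← Real.rpow_natCast]
      congr 1
      push_cast
      ring
    have e2 : r ^ j = (2 : ℝ) ^ (-c * j) := by
      rw [hr, ← Real.rpow_natCast, ← Real.rpow_mul (by norm_num)]
    rw [e1, e2, ← Real.rpow_mul (by norm_num), hδ, ← Real.rpow_add (by norm_num),
      ← Real.rpow_add (by norm_num)]
    congr 1
    ring
  obtain ⟨k, hk⟩ : ∃ k : ℕ, k = j / μ := ⟨_, rfl⟩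
  have hμk : μ * k ≤ j := by rw [hk]; exact Nat.mul_div_le j μ
  have hklow : (j : ℝ) / μ - 1 < k := by
    have h1 : j < μ * (k + 1) := by
      rw [hk]
      exact Nat.lt_mul_div_succ _ hμ0
    have h2 : (j : ℝ) < μ * (k + 1) := by exact_mod_cast h1
    have h3 : (j : ℝ) / μ < k + 1 := by
      rw [div_lt_iff₀' hμR]
      exact h2
    linarith
  have hlogδ : Real.log (2 / δ) ≤ 1 + 3 * c * j := by
    rw [Real.log_div (by norm_num) hδ0.ne', hδ, Real.log_rpow (by norm_num)]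
    have h1 := Real.log_two_lt_d9
    have h2 := Real.log_two_gt_d9
    have h3 : 0 ≤ 3 * c * j := by positivity
    nlinarith
  have hCδ : C * Real.log (2 / δ) ≤ C + j / (2 * μ) := by
    have h1 : C * Real.log (2 / δ) ≤ C * (1 + 3 * c * j) := mul_le_mul_of_nonneg_left hlogδ hC.le
    have h2 : 3 * C * c ≤ 1 / (2 * μ) := by
      have h3 : 3 * C * c ≤ 3 * C * (1 / (6 * (C + 1) * μ)) :=
        mul_le_mul_of_nonneg_left hc2 (by positivity)
      refine h3.trans ?_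
      rw [mul_one_div, div_le_div_iff₀ (by positivity) (by positivity)]
      nlinarith [mul_pos hC hμR]
    have h4 : (j : ℝ) / (2 * μ) = 1 / (2 * μ) * j := by ring
    rw [h4]
    have h5 : (0 : ℝ) ≤ j := by positivity
    nlinarith [mul_le_mul_of_nonneg_right h2 h5]
  have hhalf : (C + D + 1 : ℝ) < j / (2 * μ) := by
    rw [lt_div_iff₀ (by positivity)]
    linarith
  have hsplit : (j : ℝ) / μ = j / (2 * μ) + j / (2 * μ) := by
    field_simp
    ring
  have hkD : C * Real.log (2 / δ) < (k : ℝ) - D := by linarith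
  have hDk : D ≤ k := by
    have h1 : (D : ℝ) ≤ k := by
      have : (0 : ℝ) ≤ C := hC.le
      have h2 : 0 ≤ (j : ℝ) / (2 * μ) := by positivity
      linarith
    exact_mod_cast h1
  obtain ⟨i, hiD, hik, hgrid⟩ := hbox A j μ k D δ hδ0 hδcard (by omega) hμk hDk hkD
  obtain ⟨h, hh⟩ : ∃ h, h = 2 ^ μ / (4 * m) := ⟨_, rfl⟩
  rw [← hh] at hgrid
  have hh1 : 1 ≤ h := by
    rw [hh, Nat.le_div_iff_mul_le (by omega)]
    omega
  have hhlow : (2 : ℝ) ^ μ ≤ 8 * m * h := by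
    have h1 : 2 ^ μ < 4 * m * (h + 1) := by
      rw [hh]
      exact Nat.lt_mul_div_succ _ (by omega)
    have h2 : 4 * m * (h + 1) ≤ 8 * m * h := by nlinarith
    have h3 : ((2 ^ μ : ℕ) : ℝ) ≤ ((8 * m * h : ℕ) : ℝ) := by exact_mod_cast (h1.le.trans h2)
    push_cast at h3
    exact h3
  have hεh : 1 ≤ ε * h := by
    have h1 : 8 * (m : ℝ) * (1 / ε + 1) < 8 * m * h := by linarith
    have h2 : 1 / ε + 1 < h := lt_of_mul_lt_mul_left h1 (by positivity)
    have h3 : 1 / ε ≤ h := by linarith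
    rw [div_le_iff₀ hε] at h3
    linarith
  refine ⟨h * (2 ^ μ) ^ i, ?_, ?_⟩
  · have h1 : i < 2 ^ i := Nat.lt_two_pow_self
    have h2 : 2 ^ i ≤ (2 ^ μ) ^ i := Nat.pow_le_pow_left (by omega) i
    have h3 : (2 ^ μ) ^ i ≤ h * (2 ^ μ) ^ i := Nat.le_mul_of_pos_left _ hh1
    omega
  · refine hgrid.mono ?_
    have h1 : (0 : ℝ) ≤ (((2 ^ μ) ^ i : ℕ) : ℝ) := by positivity
    have h2 := mul_le_mul_of_nonneg_right hεh h1
    rw [one_mul] at h2
    refine h2.trans (le_of_eq ?_)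
    rw [Nat.cast_mul]
    ring

end Pool.Agent.Helper52.NG
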