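import Pool.Agent.Helper52.NG.Chain

/-!
# Near grids in subsets of `[N]²`
-/

namespace Pool.Agent.Helper52.NG

open Finset

/-- lifting a pattern from `ZMod (2N)` to the integers -/
theorem lift {N : ℕ} {ι : Type*} (u : ZMod (2 * N)) (w x : ι → ℕ)
    (hx : ∀ p, ((x p : ℕ) : ZMod (2 * N)) = u + (w p : ℕ)) (h1 : ∀ p, 1 ≤ x p ∧ x p ≤ N)
    (h2 : ∀ p, w p < N) : ∃ s : ℤ, ∀ p, (x p : ℤ) = s + w p := by
  rcases isEmpty_or_nonempty ι with h | ⟨⟨p0⟩⟩
  · exact ⟨0, fun p => (h.false p).elim⟩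
  refine ⟨(x p0 : ℤ) - w p0, fun p => ?_⟩
  have h3 : (((x p : ℤ) - w p - ((x p0 : ℤ) - w p0) : ℤ) : ZMod (2 * N)) = 0 := by
    push_cast
    rw [hx p, hx p0]
    ring
  rw [ZMod.intCast_zmod_eq_zero_iff_dvd] at h3
  have h4 : (x p : ℤ) - w p - ((x p0 : ℤ) - w p0) = 0 := by
    refine Int.eq_zero_of_abs_lt_dvd h3 ?_
    have a1 := h1 p
    have a2 := h1 p0
    have a3 := h2 p
    have a4 := h2 p0
    rw [abs_lt]
    push_cast
    constructor <;> omega
  linarith

/-- **Near grids at most scales.** -/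
theorem fin_main (m : ℕ) (hm : 0 < m) : ∃ C : ℝ, 0 < C ∧ ∀ (N : ℕ) (A : Finset (ℕ × ℕ)),
    0 < N → A ⊆ Icc 1 N ×ˢ Icc 1 N → ∀ δ : ℝ, 0 < δ → δ * (N : ℝ) ^ 2 ≤ A.card →
    ∀ q M k : ℕ, 4 * m ≤ M → q * M ^ k ≤ N →
    ∃ B : Finset ℕ, B ⊆ range k ∧ (B.card : ℝ) ≤ C * Real.log (2 / δ) ∧ ∀ i ∈ range k, i ∉ B →
      ∃ (s t : ℤ) (I J : Fin m → ℕ), (∀ a, I a < M ^ i) ∧ (∀ b, J b < M ^ i) ∧
        ∀ a b : Fin m, ∃ z ∈ A, (z.1 : ℤ) = s + q * ((a : ℕ) * ((M / (4 * m) : ℕ) * M ^ i) + I a) ∧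
          (z.2 : ℤ) = t + q * ((b : ℕ) * ((M / (4 * m) : ℕ) * M ^ i) + J b) := by
  have hm1 : (1 : ℝ) ≤ m := by exact_mod_cast hm
  obtain ⟨κ, hκdef⟩ : ∃ κ : ℝ, κ = 1 / (20000 * (m : ℝ) ^ 3) := ⟨_, rfl⟩
  have hκ : 0 < κ := by rw [hκdef]; positivity
  have hκ2 : κ * (20000 * (m : ℝ) ^ 3) ≤ 1 := by
    rw [hκdef]
    apply le_of_eq
    field_simp
  have hlog : 0 < Real.log (1 + κ ^ 2) := Real.log_pos (by nlinarith [pow_pos hκ 2])
  refine ⟨2 * ((2 * m) * (2 * m) : ℕ) / Real.log (1 + κ ^ 2), by positivity, ?_⟩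
  intro N A hN hA δ hδ hδA q M k hM hqM
  have : NeZero (2 * N) := ⟨by omega⟩
  have hN' : (0 : ℝ) < N := by exact_mod_cast hN
  have hcardle : (A.card : ℝ) ≤ (N : ℝ) ^ 2 := by
    have h1 := card_le_card hA
    rw [card_product, Nat.card_Icc, Nat.add_sub_cancel] at h1
    have h2 : ((A.card : ℕ) : ℝ) ≤ ((N * N : ℕ) : ℝ) := by exact_mod_cast h1
    rw [Nat.cast_mul] at h2
    nlinarith
  have hδ1 : δ ≤ 1 := by
    have h1 : δ * (N : ℝ) ^ 2 ≤ 1 * (N : ℝ) ^ 2 := by linarith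
    exact le_of_mul_le_mul_right h1 (by positivity)
  obtain ⟨f, hf⟩ : ∃ f : ZMod (2 * N) → ZMod (2 * N) → ℝ, ∀ u v, f u v =
      if (u.val, v.val) ∈ A then 1 else 0 := ⟨_, fun _ _ => rfl⟩
  have hf0 : ∀ u v, 0 ≤ f u v := by
    intro u v
    rw [hf]
    split_ifs <;> norm_num
  have hf1 : ∀ u v, f u v ≤ 1 := by
    intro u v
    rw [hf]
    split_ifs <;> norm_num
  have hcard : ((univ : Finset (ZMod (2 * N) × ZMod (2 * N))).filter
      (fun p => (p.1.val, p.2.val) ∈ A)).card = A.card := by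
    refine card_bij (fun p _ => (p.1.val, p.2.val)) ?_ ?_ ?_
    · intro p hp
      exact (mem_filter.1 hp).2
    · intro p _ q _ h
      rw [Prod.mk.injEq] at h
      exact Prod.ext (ZMod.val_injective _ h.1) (ZMod.val_injective _ h.2)
    · intro y hy
      have h1 := hA hy
      rw [mem_product, mem_Icc, mem_Icc] at h1
      have e1 : ((y.1 : ℕ) : ZMod (2 * N)).val = y.1 := by
        rw [ZMod.val_natCast, Nat.mod_eq_of_lt (by omega)]
      have e2 : ((y.2 : ℕ) : ZMod (2 * N)).val = y.2 := by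
        rw [ZMod.val_natCast, Nat.mod_eq_of_lt (by omega)]
      refine ⟨(((y.1 : ℕ) : ZMod (2 * N)), ((y.2 : ℕ) : ZMod (2 * N))), ?_, ?_⟩
      · rw [mem_filter]
        refine ⟨mem_univ _, ?_⟩
        simp only [e1, e2]
        exact hy
      · simp only [e1, e2]
  have hsum : ∑ u, ∑ v, f u v = A.card := by
    rw [← hcard, ← sum_product', card_filter]
    push_cast
    refine sum_congr rfl fun p _ => ?_
    rw [hf]
  have hG : (Fintype.card (ZMod (2 * N)) : ℝ) = 2 * N := by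
    rw [ZMod.card]
    push_cast
    ring
  obtain ⟨α, hαdef⟩ : ∃ α : ℝ, α = A.card / (2 * (N : ℝ)) ^ 2 := ⟨_, rfl⟩
  have hA0 : (0 : ℝ) < A.card := lt_of_lt_of_le (by positivity) hδA
  have hα0 : 0 < α := by rw [hαdef]; positivity
  have hα1 : α ≤ 1 := by
    rw [hαdef, div_le_one (by positivity)]
    nlinarith
  have hαδ : δ / 4 ≤ α := by
    rw [hαdef, le_div_iff₀ (by positivity)]
    nlinarith
  have hα : ∑ u, ∑ v, f u v = α * (Fintype.card (ZMod (2 * N)) : ℝ) ^ 2 := by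
    rw [hsum, hG, hαdef]
    field_simp
  obtain ⟨B, hB1, hB2, hB3⟩ := good hf0 hf1 ((q : ℕ) : ZMod (2 * N)) m M hm (by omega) κ hκ hκ2 α
    hα0 hα k
  refine ⟨B, hB1, ?_, ?_⟩
  · -- the number of bad scales
    have h1 : (1 + κ ^ 2) ^ B.card * α ^ ((2 * m) * (2 * m)) ≤ 1 := hB2.trans hα1
    have h2 := Real.log_le_log (by positivity) h1
    rw [Real.log_one, Real.log_mul (by positivity) (by positivity), Real.log_pow, Real.log_pow] at h2
    have h3 : Real.log (1 / α) ≤ 2 * Real.log (2 / δ) := by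
      have h4 : 1 / α ≤ (2 / δ) ^ 2 := by
        rw [div_pow, div_le_div_iff₀ hα0 (by positivity)]
        nlinarith
      have h5 := Real.log_le_log (by positivity) h4
      rw [Real.log_pow] at h5
      exact_mod_cast h5
    rw [one_div, Real.log_inv] at h3
    rw [div_mul_eq_mul_div, le_div_iff₀ hlog]
    have h6 : (0 : ℝ) ≤ (((2 * m) * (2 * m) : ℕ) : ℝ) := by positivity
    nlinarith [mul_le_mul_of_nonneg_left h3 h6]
  · intro i hi hiB
    have hM0 : 0 < M := by omega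
    have hMi : 0 < M ^ i := by positivity
    have hh : 4 * m * (M / (4 * m)) ≤ M := Nat.mul_div_le M (4 * m)
    obtain ⟨h, hhdef⟩ : ∃ h, h = M / (4 * m) := ⟨_, rfl⟩
    rw [← hhdef] at hh ⊢
    have hpat : ∀ p : Fin (2 * m), 2 * ((p : ℕ) * h) ≤ M := by
      intro p
      have h1 : (p : ℕ) ≤ 2 * m := p.2.le
      calc 2 * ((p : ℕ) * h) ≤ 2 * ((2 * m) * h) :=
            Nat.mul_le_mul_left 2 (Nat.mul_le_mul_right h h1)
        _ = 4 * m * h := by ring
        _ ≤ M := hh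
    obtain ⟨u, v, I, J, hI, hJ, hIJ⟩ := hB3 i hi hiB (fun p => p * h) (fun p => p * h) hpat hpat
    have hmem : ∀ p p' : Fin (2 * m), ((u + ((p : ℕ) * h) • (M ^ i • ((q : ℕ) : ZMod (2 * N))) +
        I p • ((q : ℕ) : ZMod (2 * N))).val, (v + ((p' : ℕ) * h) • (M ^ i • ((q : ℕ) :
        ZMod (2 * N))) + J p' • ((q : ℕ) : ZMod (2 * N))).val) ∈ A := by
      intro p p'
      have h1 := hIJ p p'
      rw [hf] at h1
      by_contra hcon
      rw [if_neg hcon] at h1
      exact lt_irrefl _ h1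
    have hm2 : 0 < 2 * m := by omega
    have hw : ∀ (p : Fin (2 * m)) (K : Fin (2 * m) → ℕ), (∀ p, K p < M ^ i) →
        q * ((p : ℕ) * (h * M ^ i) + K p) < N := by
      intro p K hK
      have h1 := hpat p
      have h2 := hK p
      have hik : i + 1 ≤ k := by
        have := mem_range.1 hi
        omega
      have h3 : M ^ (i + 1) ≤ M ^ k := Nat.pow_le_pow_right hM0 hik
      have h4 : ((p : ℕ) * (h * M ^ i) + K p) + 1 ≤ M ^ (i + 1) := by
        have h5 : 2 * (((p : ℕ) * h) * M ^ i) ≤ M * M ^ i := by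
          rw [← mul_assoc]
          exact Nat.mul_le_mul_right _ h1
        have h6 : 2 * M ^ i ≤ M * M ^ i := Nat.mul_le_mul_right _ (by omega)
        rw [pow_succ', ← mul_assoc]
        omega
      rcases Nat.eq_zero_or_pos q with hq | hq
      · rw [hq, zero_mul]
        exact hN
      · calc q * ((p : ℕ) * (h * M ^ i) + K p) < q * M ^ (i + 1) :=
              Nat.mul_lt_mul_of_pos_left (by omega) hq
          _ ≤ q * M ^ k := Nat.mul_le_mul_left q h3
          _ ≤ N := hqM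
    have hI0 : Fin (2 * m) := ⟨0, hm2⟩
    obtain ⟨s, hs⟩ := lift u (fun p : Fin (2 * m) => q * ((p : ℕ) * (h * M ^ i) + I p))
      (fun p => (u + ((p : ℕ) * h) • (M ^ i • ((q : ℕ) : ZMod (2 * N))) +
        I p • ((q : ℕ) : ZMod (2 * N))).val) (by
        intro p
        rw [ZMod.natCast_val, ZMod.cast_id', id]
        simp only [nsmul_eq_mul]
        push_cast
        ring) (by
        intro p
        have h1 := hA (hmem p hI0)
        rw [mem_product, mem_Icc, mem_Icc] at h1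
        exact h1.1) (fun p => hw p I hI)
    obtain ⟨t, ht⟩ := lift v (fun p : Fin (2 * m) => q * ((p : ℕ) * (h * M ^ i) + J p))
      (fun p => (v + ((p : ℕ) * h) • (M ^ i • ((q : ℕ) : ZMod (2 * N))) +
        J p • ((q : ℕ) : ZMod (2 * N))).val) (by
        intro p
        rw [ZMod.natCast_val, ZMod.cast_id', id]
        simp only [nsmul_eq_mul]
        push_cast
        ring) (by
        intro p
        have h1 := hA (hmem hI0 p)
        rw [mem_product, mem_Icc, mem_Icc] at h1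
        exact h1.2) (fun p => hw p J hJ)
    have hm2m : m ≤ 2 * m := by omega
    refine ⟨s, t, fun a => I (Fin.castLE hm2m a), fun a => J (Fin.castLE hm2m a),
      fun a => hI _, fun b => hJ _, fun a b => ?_⟩
    refine ⟨_, hmem (Fin.castLE hm2m a) (Fin.castLE hm2m b), ?_, ?_⟩
    · have h1 := hs (Fin.castLE hm2m a)
      rw [h1]
      push_cast
      rfl
    · have h1 := ht (Fin.castLE hm2m b)
      rw [h1]
      push_cast
      rfl

end Pool.Agent.Helper52.NG
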