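import Mathlib

/-!
# Near invariance under translations at a good scale

`G` a finite abelian group, `s ∈ G`, `g_t : G → ℝ` nonnegative functions.  If averaging over `M`
translates by multiples of `s` hardly changes the `2r`-th moment, then `g_t` is nearly invariant under
all translations by `k s`, `k ≤ M/2`, and all mixed moments are nearly equal to the `2r`-th moment.
-/

namespace Pool.Agent.Helper52.NG

open Finset

variable {G : Type*} [AddCommGroup G] [Fintype G]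

theorem sum_shift (F : G → ℝ) (c : G) : ∑ u, F (u + c) = ∑ u, F u :=
  Equiv.sum_comp (Equiv.addRight c) F

/-- power mean inequality for the average over `M` translates -/
theorem avg_pow (n M : ℕ) (hM : 0 < M) (z : ℕ → ℝ) (hz : ∀ a, 0 ≤ z a) :
    ((∑ a ∈ range M, z a) / M) ^ n ≤ (∑ a ∈ range M, z a ^ n) / M := by
  have h := Real.pow_arith_mean_le_arith_mean_pow (range M) (fun _ => 1 / (M : ℝ)) z
    (fun i _ => by positivity) (by
      rw [sum_const, card_range, nsmul_eq_mul]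
      field_simp) (fun i _ => hz i) n
  have e1 : ∑ i ∈ range M, 1 / (M : ℝ) * z i = (∑ a ∈ range M, z a) / M := by
    rw [← mul_sum]
    ring
  have e2 : ∑ i ∈ range M, 1 / (M : ℝ) * z i ^ n = (∑ a ∈ range M, z a ^ n) / M := by
    rw [← mul_sum]
    ring
  rw [e1, e2] at h
  exact h

theorem avg_pow_sum (n M : ℕ) (hM : 0 < M) (s : G) (g : G → ℝ) (hg : ∀ u, 0 ≤ g u) :
    ∑ u, ((∑ a ∈ range M, g (u + a • s)) / M) ^ n ≤ ∑ u, g u ^ n := by
  have hM' : (0 : ℝ) < M := by exact_mod_cast hM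
  calc ∑ u, ((∑ a ∈ range M, g (u + a • s)) / M) ^ n
      ≤ ∑ u, (∑ a ∈ range M, g (u + a • s) ^ n) / M :=
        sum_le_sum fun u _ => avg_pow n M hM _ fun a => hg _
    _ = (∑ a ∈ range M, ∑ u, g (u + a • s) ^ n) / M := by
        rw [← sum_div, sum_comm]
    _ = (∑ a ∈ range M, ∑ u, g u ^ n) / M := by
        congr 1
        refine sum_congr rfl fun a _ => ?_
        exact sum_shift (fun u => g u ^ n) (a • s)
    _ = ∑ u, g u ^ n := by
        rw [sum_const, card_range, nsmul_eq_mul]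
        field_simp

/-- arithmetic-geometric mean inequality for products of translates -/
theorem prod_le_pow (n : ℕ) (hn : 0 < n) (z : Fin n → ℝ) (hz : ∀ i, 0 ≤ z i) :
    ∏ i, z i ≤ (∑ i, z i ^ n) / n := by
  have hn' : (0 : ℝ) < n := by exact_mod_cast hn
  have h := Real.geom_mean_le_arith_mean_weighted univ (fun _ : Fin n => 1 / (n : ℝ))
    (fun i => z i ^ n) (fun i _ => by positivity) (by
      rw [sum_const, card_univ, Fintype.card_fin, nsmul_eq_mul]
      field_simp) (fun i _ => pow_nonneg (hz i) _)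
  have e1 : ∏ i, (z i ^ n) ^ (1 / (n : ℝ)) = ∏ i, z i := by
    refine prod_congr rfl fun i _ => ?_
    rw [one_div]
    exact Real.pow_rpow_inv_natCast (hz i) hn.ne'
  have e2 : ∑ i, 1 / (n : ℝ) * z i ^ n = (∑ i, z i ^ n) / n := by
    rw [← mul_sum]
    ring
  rw [e1, e2] at h
  exact h

theorem prod_sum_le (n : ℕ) (hn : 0 < n) (c : Fin n → G) (g : G → ℝ) (hg : ∀ u, 0 ≤ g u) :
    ∑ u, ∏ i, g (u + c i) ≤ ∑ u, g u ^ n := by
  have hn' : (0 : ℝ) < n := by exact_mod_cast hn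
  calc ∑ u, ∏ i, g (u + c i) ≤ ∑ u, (∑ i, g (u + c i) ^ n) / n :=
        sum_le_sum fun u _ => prod_le_pow n hn _ fun i => hg _
    _ = (∑ i, ∑ u, g (u + c i) ^ n) / n := by
        rw [← sum_div, sum_comm]
    _ = (∑ i : Fin n, ∑ u, g u ^ n) / n := by
        congr 1
        refine sum_congr rfl fun i _ => ?_
        exact sum_shift (fun u => g u ^ n) (c i)
    _ = ∑ u, g u ^ n := by
        rw [sum_const, card_univ, Fintype.card_fin, nsmul_eq_mul]
        field_simp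

/-- near invariance in the square mean -/
theorem near {τ : Type*} (T : Finset τ) (h : τ → G → ℝ) (s : G) (M : ℕ) (hM : 0 < M) (η : ℝ)
    (hη : 0 ≤ η)
    (hS : ∑ t ∈ T, ∑ u, h t u ^ 2 ≤
      (1 + η) * ∑ t ∈ T, ∑ u, ((∑ a ∈ range M, h t (u + a • s)) / M) ^ 2)
    (k : ℕ) (hk : 2 * k ≤ M) :
    ∑ t ∈ T, ∑ u, (h t (u + k • s) - h t u) ^ 2 ≤ 8 * η * ∑ t ∈ T, ∑ u, h t u ^ 2 := by
  have hM' : (0 : ℝ) < M := by exact_mod_cast hM
  set m : τ → G → ℝ := fun t u => (∑ a ∈ range M, h t (u + a • s)) / M with hm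
  set S : ℝ := ∑ t ∈ T, ∑ u, h t u ^ 2 with hSd
  set S' : ℝ := ∑ t ∈ T, ∑ u, m t u ^ 2 with hSd'
  -- the variance
  have hvar : ∀ t u, ∑ a ∈ range M, (h t (u + a • s) - m t u) ^ 2 =
      ∑ a ∈ range M, h t (u + a • s) ^ 2 - M * m t u ^ 2 := by
    intro t u
    have e1 : ∑ a ∈ range M, h t (u + a • s) = M * m t u := by
      rw [hm]
      field_simp
    have e2 : ∀ a ∈ range M, (h t (u + a • s) - m t u) ^ 2 =
        h t (u + a • s) ^ 2 - 2 * m t u * h t (u + a • s) + m t u ^ 2 := fun a _ => by ring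
    rw [sum_congr rfl e2, sum_add_distrib, sum_sub_distrib, ← mul_sum, e1, sum_const, card_range,
      nsmul_eq_mul]
    ring
  have hV : ∑ t ∈ T, ∑ u, ∑ a ∈ range M, (h t (u + a • s) - m t u) ^ 2 = M * (S - S') := by
    have e1 : ∑ t ∈ T, ∑ u, ∑ a ∈ range M, h t (u + a • s) ^ 2 = M * S := by
      rw [hSd, mul_sum]
      refine sum_congr rfl fun t _ => ?_
      rw [sum_comm]
      have : ∀ a ∈ range M, ∑ u, h t (u + a • s) ^ 2 = ∑ u, h t u ^ 2 := fun a _ =>
        sum_shift (fun u => h t u ^ 2) (a • s)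
      rw [sum_congr rfl this, sum_const, card_range, nsmul_eq_mul]
    have e2 : ∑ t ∈ T, ∑ u, (M : ℝ) * m t u ^ 2 = M * S' := by
      rw [hSd', mul_sum]
      refine sum_congr rfl fun t _ => ?_
      rw [mul_sum]
    simp only [hvar, sum_sub_distrib]
    rw [e1, e2]
    ring
  have hS'0 : 0 ≤ S' := sum_nonneg fun t _ => sum_nonneg fun u _ => sq_nonneg _
  have hV0 : 0 ≤ ∑ t ∈ T, ∑ u, ∑ a ∈ range M, (h t (u + a • s) - m t u) ^ 2 :=
    sum_nonneg fun t _ => sum_nonneg fun u _ => sum_nonneg fun a _ => sq_nonneg _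
  rw [hV] at hV0
  have hSS : S' ≤ S := by
    have := (mul_nonneg_iff_of_pos_left hM').1 hV0
    linarith
  have hdiff : S - S' ≤ η * S := by
    have h1 : S ≤ (1 + η) * S' := hS
    have h2 : η * S' ≤ η * S := mul_le_mul_of_nonneg_left hSS hη
    linarith
  -- translating the difference
  have htr : ∀ a : ℕ, ∑ t ∈ T, ∑ u, (h t (u + (a + k) • s) - h t (u + a • s)) ^ 2 =
      ∑ t ∈ T, ∑ u, (h t (u + k • s) - h t u) ^ 2 := by
    intro a
    refine sum_congr rfl fun t _ => ?_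
    have := sum_shift (fun u => (h t (u + k • s) - h t u) ^ 2) (a • s)
    rw [← this]
    refine sum_congr rfl fun u _ => ?_
    rw [add_smul, add_assoc]
  have hsum : ((M - k : ℕ) : ℝ) * ∑ t ∈ T, ∑ u, (h t (u + k • s) - h t u) ^ 2 ≤
      4 * ∑ t ∈ T, ∑ u, ∑ a ∈ range M, (h t (u + a • s) - m t u) ^ 2 := by
    have e1 : ((M - k : ℕ) : ℝ) * ∑ t ∈ T, ∑ u, (h t (u + k • s) - h t u) ^ 2 =
        ∑ a ∈ range (M - k), ∑ t ∈ T, ∑ u, (h t (u + (a + k) • s) - h t (u + a • s)) ^ 2 := by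
      rw [sum_congr rfl fun a _ => htr a, sum_const, card_range, nsmul_eq_mul]
    rw [e1, sum_comm, mul_sum]
    refine sum_le_sum fun t _ => ?_
    rw [sum_comm, mul_sum]
    refine sum_le_sum fun u _ => ?_
    have e2 : ∑ a ∈ range (M - k), (h t (u + (a + k) • s) - h t (u + a • s)) ^ 2 ≤
        ∑ a ∈ range (M - k), (2 * (h t (u + (a + k) • s) - m t u) ^ 2 +
          2 * (h t (u + a • s) - m t u) ^ 2) := by
      refine sum_le_sum fun a _ => ?_
      nlinarith [sq_nonneg ((h t (u + (a + k) • s) - m t u) + (h t (u + a • s) - m t u))]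
    have e3 : ∑ a ∈ range (M - k), (h t (u + (a + k) • s) - m t u) ^ 2 ≤
        ∑ a ∈ range M, (h t (u + a • s) - m t u) ^ 2 := by
      have e4 : ∑ a ∈ range (M - k), (h t (u + (a + k) • s) - m t u) ^ 2 =
          ∑ b ∈ (range (M - k)).image (fun a => a + k), (h t (u + b • s) - m t u) ^ 2 := by
        rw [sum_image]
        intro x _ y _ hxy
        simpa using hxy
      rw [e4]
      refine sum_le_sum_of_subset_of_nonneg ?_ fun _ _ _ => sq_nonneg _
      intro b hb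
      rw [mem_image] at hb
      obtain ⟨a, ha, rfl⟩ := hb
      rw [mem_range] at ha ⊢
      omega
    have e5 : ∑ a ∈ range (M - k), (h t (u + a • s) - m t u) ^ 2 ≤
        ∑ a ∈ range M, (h t (u + a • s) - m t u) ^ 2 := by
      refine sum_le_sum_of_subset_of_nonneg ?_ fun _ _ _ => sq_nonneg _
      exact range_subset_range.2 (Nat.sub_le _ _)
    rw [sum_add_distrib, ← mul_sum, ← mul_sum] at e2
    linarith
  rw [hV] at hsum
  have hMk : (M : ℝ) / 2 ≤ ((M - k : ℕ) : ℝ) := by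
    rw [Nat.cast_sub (by omega)]
    have : (2 : ℝ) * k ≤ M := by exact_mod_cast hk
    linarith
  set P : ℝ := ∑ t ∈ T, ∑ u, (h t (u + k • s) - h t u) ^ 2 with hP
  have hP0 : 0 ≤ P := sum_nonneg fun t _ => sum_nonneg fun u _ => sq_nonneg _
  have h1 : (M : ℝ) / 2 * P ≤ ((M - k : ℕ) : ℝ) * P := mul_le_mul_of_nonneg_right hMk hP0
  have h2 : (M : ℝ) * (S - S') ≤ M * (η * S) := mul_le_mul_of_nonneg_left hdiff hM'.le
  have h3 : (M : ℝ) * P ≤ M * (8 * η * S) := by nlinarith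
  exact le_of_mul_le_mul_left h3 hM'

/-- mixed moments are nearly equal to the `2r`-th moment -/
theorem mixed {τ : Type*} (T : Finset τ) (g : τ → G → ℝ) (hg : ∀ t u, 0 ≤ g t u) (s : G) (r M : ℕ)
    (hr : 0 < r) (hM : 0 < M) (κ : ℝ) (hκ : 0 < κ)
    (hS : ∑ t ∈ T, ∑ u, g t u ^ (2 * r) ≤
      (1 + κ ^ 2) * ∑ t ∈ T, ∑ u, ((∑ a ∈ range M, g t (u + a • s)) / M) ^ (2 * r))
    (a : Fin (2 * r) → ℕ) (ha : ∀ i, 2 * a i ≤ M) :
    (1 - 12 * r * κ) * ∑ t ∈ T, ∑ u, g t u ^ (2 * r) ≤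
      ∑ t ∈ T, ∑ u, ∏ i, g t (u + a i • s) := by
  have hM' : (0 : ℝ) < M := by exact_mod_cast hM
  set h : τ → G → ℝ := fun t u => g t u ^ r with hh
  have hh0 : ∀ t u, 0 ≤ h t u := fun t u => pow_nonneg (hg t u) r
  have hsq : ∀ t u, h t u ^ 2 = g t u ^ (2 * r) := fun t u => by
    rw [hh, ← pow_mul, mul_comm r 2]
  have hS2 : ∑ t ∈ T, ∑ u, h t u ^ 2 ≤
      (1 + κ ^ 2) * ∑ t ∈ T, ∑ u, ((∑ a ∈ range M, h t (u + a • s)) / M) ^ 2 := by
    simp only [hsq]
    refine hS.trans ?_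
    refine mul_le_mul_of_nonneg_left ?_ (by positivity)
    refine sum_le_sum fun t _ => sum_le_sum fun u _ => ?_
    rw [mul_comm 2 r, pow_mul]
    refine pow_le_pow_left₀ (pow_nonneg (div_nonneg (sum_nonneg fun a _ => hg _ _) hM'.le) _) ?_ 2
    exact avg_pow r M hM (fun a => g t (u + a • s)) fun a => hg _ _
  set S : ℝ := ∑ t ∈ T, ∑ u, h t u ^ 2 with hSd
  have hSS : S = ∑ t ∈ T, ∑ u, g t u ^ (2 * r) := by
    rw [hSd]
    simp only [hsq]
  rw [← hSS]
  have hnear : ∀ i, ∑ t ∈ T, ∑ u, (h t (u + a i • s) - h t u) ^ 2 ≤ 8 * κ ^ 2 * S := fun i =>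
    near T h s M hM (κ ^ 2) (sq_nonneg _) hS2 (a i) (ha i)
  have hplus : ∀ i, ∑ t ∈ T, ∑ u, (h t (u + a i • s) + h t u) ^ 2 ≤ 4 * S := by
    intro i
    have e1 : ∀ t u, (h t (u + a i • s) + h t u) ^ 2 ≤
        2 * h t (u + a i • s) ^ 2 + 2 * h t u ^ 2 := fun t u => by
      nlinarith [sq_nonneg (h t (u + a i • s) - h t u)]
    calc ∑ t ∈ T, ∑ u, (h t (u + a i • s) + h t u) ^ 2
        ≤ ∑ t ∈ T, ∑ u, (2 * h t (u + a i • s) ^ 2 + 2 * h t u ^ 2) :=
          sum_le_sum fun t _ => sum_le_sum fun u _ => e1 t u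
      _ = ∑ t ∈ T, (2 * ∑ u, h t (u + a i • s) ^ 2 + 2 * ∑ u, h t u ^ 2) := by
          refine sum_congr rfl fun t _ => ?_
          rw [sum_add_distrib, mul_sum, mul_sum]
      _ = ∑ t ∈ T, (4 * ∑ u, h t u ^ 2) := by
          refine sum_congr rfl fun t _ => ?_
          rw [sum_shift (fun u => h t u ^ 2) (a i • s)]
          ring
      _ = 4 * S := by rw [hSd, mul_sum]
  -- pointwise lower bound for the product
  have hpt : ∀ t u, h t u ^ 2 - ∑ i : Fin (2 * r),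
      (1 / (2 * κ) * (h t (u + a i • s) - h t u) ^ 2 + κ / 2 * (h t (u + a i • s) + h t u) ^ 2) ≤
        ∏ i, g t (u + a i • s) := by
    intro t u
    have hpos : 0 < 2 * r := by omega
    
    obtain ⟨j, _, hj⟩ := exists_min_image (univ : Finset (Fin (2 * r)))
      (fun i => g t (u + a i • s)) ⟨⟨0, hpos⟩, mem_univ _⟩
    have e1 : h t (u + a j • s) ^ 2 ≤ ∏ i, g t (u + a i • s) := by
      rw [hsq]
      have e2 : ∏ _i : Fin (2 * r), g t (u + a j • s) ≤ ∏ i, g t (u + a i • s) :=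
        prod_le_prod (fun i _ => hg _ _) fun i _ => hj i (mem_univ i)
      rw [prod_const, card_univ, Fintype.card_fin] at e2
      exact e2
    have e3 : h t u ^ 2 - (1 / (2 * κ) * (h t (u + a j • s) - h t u) ^ 2 +
        κ / 2 * (h t (u + a j • s) + h t u) ^ 2) ≤ h t (u + a j • s) ^ 2 := by
      have e4 : 0 ≤ 1 / (2 * κ) * ((h t (u + a j • s) - h t u) +
          κ * (h t (u + a j • s) + h t u)) ^ 2 := by positivity
      have e5 : 1 / (2 * κ) * ((h t (u + a j • s) - h t u) +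
          κ * (h t (u + a j • s) + h t u)) ^ 2 =
          1 / (2 * κ) * (h t (u + a j • s) - h t u) ^ 2 +
          κ / 2 * (h t (u + a j • s) + h t u) ^ 2 + (h t (u + a j • s) ^ 2 - h t u ^ 2) := by
        field_simp
        ring
      linarith
    have e6 : 1 / (2 * κ) * (h t (u + a j • s) - h t u) ^ 2 +
        κ / 2 * (h t (u + a j • s) + h t u) ^ 2 ≤ ∑ i : Fin (2 * r),
          (1 / (2 * κ) * (h t (u + a i • s) - h t u) ^ 2 +
            κ / 2 * (h t (u + a i • s) + h t u) ^ 2) :=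
      single_le_sum (f := fun i : Fin (2 * r) =>
        (1 / (2 * κ) * (h t (u + a i • s) - h t u) ^ 2 +
          κ / 2 * (h t (u + a i • s) + h t u) ^ 2)) (fun i _ => by positivity) (mem_univ j)
    linarith
  have hsum : ∑ t ∈ T, ∑ u, (h t u ^ 2 - ∑ i : Fin (2 * r),
      (1 / (2 * κ) * (h t (u + a i • s) - h t u) ^ 2 +
        κ / 2 * (h t (u + a i • s) + h t u) ^ 2)) ≤ ∑ t ∈ T, ∑ u, ∏ i, g t (u + a i • s) :=
    sum_le_sum fun t _ => sum_le_sum fun u _ => hpt t u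
  refine le_trans ?_ hsum
  have e7 : ∑ t ∈ T, ∑ u, (h t u ^ 2 - ∑ i : Fin (2 * r),
      (1 / (2 * κ) * (h t (u + a i • s) - h t u) ^ 2 +
        κ / 2 * (h t (u + a i • s) + h t u) ^ 2)) = S - ∑ i : Fin (2 * r),
      (1 / (2 * κ) * ∑ t ∈ T, ∑ u, (h t (u + a i • s) - h t u) ^ 2 +
        κ / 2 * ∑ t ∈ T, ∑ u, (h t (u + a i • s) + h t u) ^ 2) := by
    simp only [sum_sub_distrib]
    rw [← hSd]
    congr 1
    have e8 : ∀ t ∈ T, ∑ u, ∑ i : Fin (2 * r),
        (1 / (2 * κ) * (h t (u + a i • s) - h t u) ^ 2 +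
          κ / 2 * (h t (u + a i • s) + h t u) ^ 2) = ∑ i : Fin (2 * r),
        (1 / (2 * κ) * ∑ u, (h t (u + a i • s) - h t u) ^ 2 +
          κ / 2 * ∑ u, (h t (u + a i • s) + h t u) ^ 2) := by
      intro t _
      rw [sum_comm]
      refine sum_congr rfl fun i _ => ?_
      rw [sum_add_distrib, mul_sum, mul_sum]
    rw [sum_congr rfl e8, sum_comm]
    refine sum_congr rfl fun i _ => ?_
    rw [sum_add_distrib, mul_sum, mul_sum]
  rw [e7]
  have e9 : ∑ i : Fin (2 * r),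
      (1 / (2 * κ) * ∑ t ∈ T, ∑ u, (h t (u + a i • s) - h t u) ^ 2 +
        κ / 2 * ∑ t ∈ T, ∑ u, (h t (u + a i • s) + h t u) ^ 2) ≤
      ∑ _i : Fin (2 * r), (6 * κ * S) := by
    refine sum_le_sum fun i _ => ?_
    have f1 := mul_le_mul_of_nonneg_left (hnear i) (by positivity : 0 ≤ 1 / (2 * κ))
    have f2 := mul_le_mul_of_nonneg_left (hplus i) (by positivity : 0 ≤ κ / 2)
    have f3 : 1 / (2 * κ) * (8 * κ ^ 2 * S) = 4 * κ * S := by
      field_simp
      ring
    rw [f3] at f1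
    linarith
  rw [sum_const, card_univ, Fintype.card_fin, nsmul_eq_mul] at e9
  push_cast at e9
  linarith

end Pool.Agent.Helper52.NG
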