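import Pool.Agent.Helper52.NG.Sum

/-!
# Near grids: relative error `exp (- c log N / log (2/δ))`
-/

namespace Pool.Agent.Helper52.NG

open Finset

theorem toNear {m : ℕ} (hm : 0 < m) {A : Finset (ℕ × ℕ)} {h L : ℕ} (s t : ℤ) (I J : Fin m → ℕ)
    (hI : ∀ a, I a < L) (hJ : ∀ b, J b < L)
    (hg : ∀ a b : Fin m, ∃ z ∈ A, (z.1 : ℤ) = s + (1 : ℕ) * ((a : ℕ) * ((h : ℕ) * (L : ℕ)) + I a) ∧
          (z.2 : ℤ) = t + (1 : ℕ) * ((b : ℕ) * ((h : ℕ) * (L : ℕ)) + J b)) :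
    NearGrid (A : Set (ℕ × ℕ)) m ((h * L : ℕ) : ℝ) (L : ℝ) := by
  choose z hz hz1 hz2 using hg
  have hm0 : Nonempty (Fin m) := ⟨⟨0, hm⟩⟩
  obtain ⟨o⟩ := hm0
  have hx : ∀ a b, (z a b).1 = (z a o).1 := by
    intro a b
    have h1 := hz1 a b
    have h2 := hz1 a o
    have : ((z a b).1 : ℤ) = (z a o).1 := by rw [h1, h2]
    exact_mod_cast this
  have hy : ∀ a b, (z a b).2 = (z o b).2 := by
    intro a b
    have h1 := hz2 a b
    have h2 := hz2 o b
    have : ((z a b).2 : ℤ) = (z o b).2 := by rw [h1, h2]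
    exact_mod_cast this
  refine ⟨fun a => (z a o).1, fun b => (z o b).2, s, t, ?_, ?_, ?_⟩
  · intro a b
    show ((z a o).1, (z o b).2) ∈ (A : Set (ℕ × ℕ))
    rw [← hx a b, ← hy a b]
    exact hz a b
  · intro a
    have h1 : (((z a o).1 : ℤ) : ℝ) = ((s + (1 : ℕ) * ((a : ℕ) *
        ((h : ℕ) * (L : ℕ)) + I a) : ℤ) : ℝ) := by
      rw [hz1 a o]
    rw [Int.cast_natCast] at h1
    rw [h1]
    have h2 : ((I a : ℕ) : ℝ) ≤ (L : ℝ) := by exact_mod_cast (hI a).le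
    have h3 : (0 : ℝ) ≤ ((I a : ℕ) : ℝ) := by positivity
    rw [abs_le]
    push_cast
    constructor <;> nlinarith
  · intro b
    have h1 : (((z o b).2 : ℤ) : ℝ) = ((t + (1 : ℕ) * ((b : ℕ) *
        ((h : ℕ) * (L : ℕ)) + J b) : ℤ) : ℝ) := by
      rw [hz2 o b]
    rw [Int.cast_natCast] at h1
    rw [h1]
    have h2 : ((J b : ℕ) : ℝ) ≤ (L : ℝ) := by exact_mod_cast (hJ b).le
    have h3 : (0 : ℝ) ≤ ((J b : ℕ) : ℝ) := by positivity
    rw [abs_le]
    push_cast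
    constructor <;> nlinarith

/-- trivial grids: one point -/
theorem trivNear {m : ℕ} {A : Set (ℕ × ℕ)} {z : ℕ × ℕ} (hz : z ∈ A) {d ρ : ℝ} (hd : 0 ≤ d)
    (h : m * d ≤ ρ) : NearGrid A m d ρ := by
  have key : ∀ (a : Fin m) (w : ℝ), |w - (w + (a : ℕ) * d)| ≤ ρ := by
    intro a w
    have h1 : ((a : ℕ) : ℝ) ≤ m := by exact_mod_cast a.2.le
    have h2 : (0 : ℝ) ≤ ((a : ℕ) : ℝ) := by positivity
    have h3 : ((a : ℕ) : ℝ) * d ≤ m * d := mul_le_mul_of_nonneg_right h1 hd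
    rw [abs_le]
    constructor <;> nlinarith
  exact ⟨fun _ => z.1, fun _ => z.2, z.1, z.2, fun _ _ => hz, fun a => key a _, fun b => key b _⟩

theorem fin_rel (m : ℕ) (hm : 0 < m) : ∃ C c : ℝ, 0 < C ∧ 0 < c ∧
    ∀ (N : ℕ) (A : Finset (ℕ × ℕ)), 0 < N → A ⊆ Icc 1 N ×ˢ Icc 1 N →
      ∀ δ : ℝ, 0 < δ → δ * (N : ℝ) ^ 2 ≤ A.card → ∃ d : ℕ, N ≤ d ^ 3 ∧ d ≤ N ∧
        NearGrid (A : Set (ℕ × ℕ)) m d
          (C * d * Real.exp (-(c * Real.log N / Real.log (2 / δ)))) := by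
  obtain ⟨C₀, hC₀, hmain⟩ := fin_main m hm
  have hm1 : (1 : ℝ) ≤ m := by exact_mod_cast hm
  obtain ⟨K, hK⟩ : ∃ K : ℝ, K = 2 * C₀ + 3 := ⟨_, rfl⟩
  have hKpos : 0 < K := by rw [hK]; linarith
  refine ⟨16 * m ^ 2, 1 / K, by positivity, by positivity, ?_⟩
  intro N A hN hA δ hδ hδA
  have hN' : (0 : ℝ) < N := by exact_mod_cast hN
  have hN1 : (1 : ℝ) ≤ N := by exact_mod_cast hN
  have hcardle : (A.card : ℝ) ≤ (N : ℝ) ^ 2 := by
    have h1 := card_le_card hA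
    rw [card_product, Nat.card_Icc, Nat.add_sub_cancel] at h1
    have h2 : ((A.card : ℕ) : ℝ) ≤ ((N * N : ℕ) : ℝ) := by exact_mod_cast h1
    rw [Nat.cast_mul] at h2
    nlinarith
  have hδ1 : δ ≤ 1 := by
    have h1 : δ * (N : ℝ) ^ 2 ≤ 1 * (N : ℝ) ^ 2 := by linarith
    exact le_of_mul_le_mul_right h1 (by positivity)
  have hlog2 := Real.log_two_gt_d9
  have hlogδ : Real.log 2 ≤ Real.log (2 / δ) := by
    apply Real.log_le_log (by norm_num)
    rw [le_div_iff₀ hδ]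
    linarith
  have hlogδ0 : 0 < Real.log (2 / δ) := by linarith
  obtain ⟨l, hl⟩ : ∃ l : ℝ, l = Real.log (2 / δ) := ⟨_, rfl⟩
  rw [← hl] at hlogδ hlogδ0 ⊢
  obtain ⟨n, hn⟩ : ∃ n : ℕ, n = ⌊C₀ * l⌋₊ + 1 := ⟨_, rfl⟩
  have hT0 : 0 ≤ C₀ * l := by positivity
  have hnT : C₀ * l < n := by
    rw [hn]
    push_cast
    exact Nat.lt_floor_add_one _
  have hnle : 2 * (n : ℝ) ≤ K * l := by
    rw [hn, hK]
    push_cast
    have h1 := Nat.floor_le hT0
    nlinarith
  have hn0 : 0 < n := by omega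
  have hnR : (0 : ℝ) < n := by exact_mod_cast hn0
  have hk0 : 2 * n ≠ 0 := by omega
  -- the largest M
  obtain ⟨M, hM⟩ : ∃ M : ℕ, M = Nat.findGreatest (fun M => M ^ (2 * n) ≤ N) N := ⟨_, rfl⟩
  have hM1 : M ^ (2 * n) ≤ N := by
    rw [hM]
    refine Nat.findGreatest_spec (P := fun M => M ^ (2 * n) ≤ N) (m := 1) hN ?_
    rw [one_pow]
    exact hN
  have hM2 : N < (M + 1) ^ (2 * n) := by
    by_contra hcon
    push Not at hcon
    have h1 : M + 1 ≤ N := by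
      refine le_trans ?_ hcon
      exact Nat.le_self_pow hk0 _
    have h2 := Nat.le_findGreatest (P := fun M => M ^ (2 * n) ≤ N) h1 hcon
    omega
  have hM0 : 1 ≤ M := by
    rw [hM]
    exact Nat.le_findGreatest (P := fun M => M ^ (2 * n) ≤ N) hN (by rw [one_pow]; exact hN)
  have hlogN : Real.log N ≤ K * l * Real.log (2 * M) := by
    have h1 : N ≤ (2 * M) ^ (2 * n) := hM2.le.trans (Nat.pow_le_pow_left (by omega) _)
    have h2 : (N : ℝ) ≤ (2 * (M : ℝ)) ^ (2 * n) := by exact_mod_cast h1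
    have h3 := Real.log_le_log hN' h2
    rw [Real.log_pow] at h3
    push_cast at h3
    have hM0R : (1 : ℝ) ≤ M := by exact_mod_cast hM0
    have h4 : 0 ≤ Real.log (2 * (M : ℝ)) := Real.log_nonneg (by linarith)
    exact h3.trans (mul_le_mul_of_nonneg_right hnle h4)
  have hexp : 1 / (2 * (M : ℝ)) ≤ Real.exp (-(1 / K * Real.log N / l)) := by
    have hM0R : (1 : ℝ) ≤ M := by exact_mod_cast hM0
    have h1 : 1 / K * Real.log N / l ≤ Real.log (2 * (M : ℝ)) := by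
      rw [div_le_iff₀ hlogδ0, one_div, inv_mul_le_iff₀ hKpos]
      linarith
    rw [one_div, ← Real.exp_log (by positivity : (0 : ℝ) < 2 * M), ← Real.exp_neg]
    exact Real.exp_le_exp.2 (neg_le_neg h1)
  rcases Nat.lt_or_ge M (8 * m) with hMs | hMs
  · -- trivial case
    have hAne : A.Nonempty := by
      rw [nonempty_iff_ne_empty]
      rintro rfl
      rw [card_empty, Nat.cast_zero] at hδA
      have : 0 < δ * (N : ℝ) ^ 2 := by positivity
      linarith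
    obtain ⟨z, hz⟩ := hAne
    refine ⟨N, Nat.le_self_pow (by norm_num) N, le_rfl, trivNear (mem_coe.2 hz) hN'.le ?_⟩
    have h1 : (M : ℝ) ≤ 8 * m := by exact_mod_cast hMs.le
    have hM0R : (1 : ℝ) ≤ M := by exact_mod_cast hM0
    have h2 : 1 / (16 * (m : ℝ)) ≤ 1 / (2 * (M : ℝ)) :=
      one_div_le_one_div_of_le (by positivity) (by linarith)
    have h3 := h2.trans hexp
    have h4 : (1 : ℝ) ≤ 16 * m * Real.exp (-(1 / K * Real.log N / l)) := by
      rw [div_le_iff₀ (by positivity)] at h3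
      linarith
    have h5 : m * (N : ℝ) * 1 ≤ m * (N : ℝ) * (16 * m * Real.exp (-(1 / K * Real.log N / l))) :=
      mul_le_mul_of_nonneg_left h4 (by positivity)
    linarith
  · obtain ⟨B, hB1, hB2, hB3⟩ := hmain N A hN hA δ hδ hδA 1 M (2 * n) (by omega) (by
      rw [one_mul]
      exact hM1)
    have hBk : B.card < (Ico n (2 * n)).card := by
      rw [Nat.card_Ico]
      rw [← hl] at hB2
      have h1 : (B.card : ℝ) < n := lt_of_le_of_lt hB2 hnT
      have h2 : B.card < n := by exact_mod_cast h1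
      omega
    obtain ⟨i, hi, hiB⟩ := exists_mem_notMem_of_card_lt_card hBk
    rw [mem_Ico] at hi
    obtain ⟨s, t, I, J, hI, hJ, hg⟩ := hB3 i (mem_range.2 hi.2) hiB
    obtain ⟨h, hh⟩ : ∃ h, h = M / (4 * m) := ⟨_, rfl⟩
    rw [← hh] at hg
    have hg' := toNear (h := h) (L := M ^ i) hm s t I J hI hJ (by
      intro a b
      obtain ⟨z, hz, hz1, hz2⟩ := hg a b
      refine ⟨z, hz, ?_, ?_⟩
      · rw [hz1]
        push_cast
        rfl
      · rw [hz2]
        push_cast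
        rfl)
    have hh1 : 1 ≤ h := by
      rw [hh, Nat.le_div_iff_mul_le (by omega)]
      omega
    have hhlow : M ≤ 8 * m * h := by
      have h1 : M < 4 * m * (h + 1) := by
        rw [hh]
        exact Nat.lt_mul_div_succ _ (by omega)
      have h2 : 4 * m * (h + 1) ≤ 8 * m * h := by nlinarith
      omega
    have hhM : h ≤ M := by
      rw [hh]
      exact Nat.div_le_self _ _
    have hMn : M ^ n ≤ h * M ^ i := by
      have h1 : M ^ n ≤ M ^ i := Nat.pow_le_pow_right hM0 hi.1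
      exact h1.trans (Nat.le_mul_of_pos_left _ hh1)
    refine ⟨h * M ^ i, ?_, ?_, hg'.mono ?_⟩
    · calc N ≤ (2 * M) ^ (2 * n) := hM2.le.trans (Nat.pow_le_pow_left (by omega) _)
        _ = 4 ^ n * M ^ (2 * n) := by
          rw [mul_pow, pow_mul 2 2 n]
          norm_num
        _ ≤ M ^ n * M ^ (2 * n) := Nat.mul_le_mul_right _ (Nat.pow_le_pow_left (by omega) n)
        _ = (M ^ n) ^ 3 := by ring
        _ ≤ (h * M ^ i) ^ 3 := Nat.pow_le_pow_left hMn 3
    · calc h * M ^ i ≤ M * M ^ i := Nat.mul_le_mul_right _ hhM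
        _ = M ^ (i + 1) := by rw [pow_succ']
        _ ≤ M ^ (2 * n) := Nat.pow_le_pow_right hM0 (by omega)
        _ ≤ N := hM1
    · have hM0R : (1 : ℝ) ≤ M := by exact_mod_cast hM0
      have hhlowR : (M : ℝ) ≤ 8 * m * h := by exact_mod_cast hhlow
      have h1 : (1 : ℝ) ≤ 16 * m ^ 2 * h * (1 / (2 * M)) := by
        rw [mul_one_div, le_div_iff₀ (by positivity)]
        have h2 : (M : ℝ) * 1 ≤ 8 * m * h * m := mul_le_mul hhlowR hm1 (by norm_num) (by positivity)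
        nlinarith
      have h2 : (1 : ℝ) ≤ 16 * m ^ 2 * h * Real.exp (-(1 / K * Real.log N / l)) :=
        h1.trans (mul_le_mul_of_nonneg_left hexp (by positivity))
      have h3 : (0 : ℝ) ≤ ((M ^ i : ℕ) : ℝ) := by positivity
      have h4 := mul_le_mul_of_nonneg_left h2 h3
      rw [mul_one] at h4
      refine h4.trans (le_of_eq ?_)
      rw [Nat.cast_mul]
      ring

end Pool.Agent.Helper52.NG
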