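import Pool.Agent.Helper52.NG.Rel

/-!
# The infinite form, for general weights
-/

namespace Pool.Agent.Helper52.NG

open Finset

theorem summf (A : Set (ℕ × ℕ)) (hA : ∀ p ∈ A, 0 < p.1 ∧ 0 < p.2) (f : ℕ → ℝ) (hf : Monotone f)
    (hf1 : ∀ n, 1 ≤ f n) (w : ℕ → ℝ) (hw0 : ∀ j, 0 ≤ w j) (hw : Summable w)
    (h : ∀ j, ((bx A j).card : ℝ) * f (2 ^ j) ≤ w j * ((2 : ℝ) ^ j) ^ 2) :
    Summable (fun p : A => f (max p.1.1 p.1.2) / ((p.1.1 : ℝ) ^ 2 + (p.1.2 : ℝ) ^ 2)) := by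
  classical
  apply summable_of_sum_le (c := 4 * ∑' j, w (j + 1))
  · intro p
    have := hf1 (max p.1.1 p.1.2)
    positivity
  intro u
  set lv : A → ℕ := fun p => Nat.log 2 (max p.1.1 p.1.2) with hlv
  obtain ⟨n, hn⟩ : ∃ n, ∀ p ∈ u, lv p < n := by
    refine ⟨(u.sup lv) + 1, fun p hp => ?_⟩
    exact Nat.lt_succ_of_le (Finset.le_sup hp)
  have hmaps : ∀ p ∈ u, lv p ∈ range n := fun p hp => mem_range.mpr (hn p hp)
  rw [← Finset.sum_fiberwise_of_maps_to hmaps]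
  have hterm : ∀ J ∈ range n,
      ∑ p ∈ u with lv p = J, f (max p.1.1 p.1.2) / ((p.1.1 : ℝ) ^ 2 + (p.1.2 : ℝ) ^ 2) ≤
        4 * w (J + 1) := by
    intro J _
    have hfJ := hf1 (2 ^ (J + 1))
    have hlt : ∀ p ∈ u.filter (fun p => lv p = J), max p.1.1 p.1.2 < 2 ^ (J + 1) := by
      intro p hp
      rw [mem_filter] at hp
      have hpJ : Nat.log 2 (max p.1.1 p.1.2) = J := hp.2
      rw [← hpJ]
      exact Nat.lt_pow_succ_log_self (by norm_num) _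
    have h1 : ∀ p ∈ u.filter (fun p => lv p = J),
        f (max p.1.1 p.1.2) / ((p.1.1 : ℝ) ^ 2 + (p.1.2 : ℝ) ^ 2) ≤
          f (2 ^ (J + 1)) / ((2 : ℝ) ^ J) ^ 2 := by
      intro p hp
      have hfm := hf (hlt p hp).le
      rw [mem_filter] at hp
      have hpJ : Nat.log 2 (max p.1.1 p.1.2) = J := hp.2
      have h0 : 0 < max p.1.1 p.1.2 := lt_of_lt_of_le (hA _ p.2).1 (le_max_left _ _)
      have h2 : 2 ^ J ≤ max p.1.1 p.1.2 := by
        rw [← hpJ]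
        exact Nat.pow_log_le_self 2 h0.ne'
      have h3 : ((2 : ℝ) ^ J) ≤ max (p.1.1 : ℝ) (p.1.2 : ℝ) := by
        exact_mod_cast h2
      have h4 : ((2 : ℝ) ^ J) ^ 2 ≤ (p.1.1 : ℝ) ^ 2 + (p.1.2 : ℝ) ^ 2 := by
        have hpos : (0 : ℝ) ≤ (2 : ℝ) ^ J := by positivity
        rcases le_total (p.1.1 : ℝ) (p.1.2 : ℝ) with hle | hle
        · rw [max_eq_right hle] at h3
          nlinarith [sq_nonneg (p.1.1 : ℝ)]
        · rw [max_eq_left hle] at h3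
          nlinarith [sq_nonneg (p.1.2 : ℝ)]
      exact div_le_div₀ (by linarith) hfm (by positivity) h4
    have h2 := Finset.sum_le_card_nsmul _ _ _ h1
    rw [nsmul_eq_mul] at h2
    have h3 : ((u.filter (fun p => lv p = J)).card : ℝ) ≤ (bx A (J + 1)).card := by
      have h4 : ((u.filter (fun p => lv p = J)).map
          ⟨Subtype.val, Subtype.val_injective⟩) ⊆ bx A (J + 1) := by
        intro z hz
        rw [Finset.mem_map] at hz
        obtain ⟨p, hp, rfl⟩ := hz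
        have h5 := hlt p hp
        have h6 := hA _ p.2
        have h7 := le_max_left p.1.1 p.1.2
        have h8 := le_max_right p.1.1 p.1.2
        unfold bx
        rw [mem_filter, mem_product, mem_Icc, mem_Icc]
        refine ⟨⟨⟨h6.1, ?_⟩, ⟨h6.2, ?_⟩⟩, p.2⟩
        · exact h7.trans h5.le
        · exact h8.trans h5.le
      have h5 := card_le_card h4
      rw [card_map] at h5
      exact_mod_cast h5
    have h4 := h (J + 1)
    have hpw : (0 : ℝ) < ((2 : ℝ) ^ J) ^ 2 := by positivity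
    calc ∑ p ∈ u with lv p = J, f (max p.1.1 p.1.2) / ((p.1.1 : ℝ) ^ 2 + (p.1.2 : ℝ) ^ 2)
        ≤ ((u.filter (fun p => lv p = J)).card : ℝ) * (f (2 ^ (J + 1)) / ((2 : ℝ) ^ J) ^ 2) := h2
      _ ≤ ((bx A (J + 1)).card : ℝ) * (f (2 ^ (J + 1)) / ((2 : ℝ) ^ J) ^ 2) := by
          apply mul_le_mul_of_nonneg_right h3
          positivity
      _ ≤ (w (J + 1) * ((2 : ℝ) ^ (J + 1)) ^ 2) / ((2 : ℝ) ^ J) ^ 2 := by
          rw [mul_div_assoc']
          exact div_le_div_of_nonneg_right h4 hpw.le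
      _ = 4 * w (J + 1) := by
          rw [pow_succ (2 : ℝ) J]
          field_simp
          ring
  refine (Finset.sum_le_sum hterm).trans ?_
  rw [← Finset.mul_sum]
  apply mul_le_mul_of_nonneg_left _ (by norm_num)
  exact ((summable_nat_add_iff 1).2 hw).sum_le_tsum (range n) (fun J _ => hw0 _)

theorem freqf (A : Set (ℕ × ℕ)) (hA : ∀ p ∈ A, 0 < p.1 ∧ 0 < p.2) (f : ℕ → ℝ) (hf : Monotone f)
    (hf1 : ∀ n, 1 ≤ f n) (w : ℕ → ℝ) (hw0 : ∀ j, 0 ≤ w j) (hw : Summable w)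
    (hns : ¬ Summable (fun p : A => f (max p.1.1 p.1.2) / ((p.1.1 : ℝ) ^ 2 + (p.1.2 : ℝ) ^ 2)))
    (j0 : ℕ) : ∃ j, j0 ≤ j ∧ w j * ((2 : ℝ) ^ j) ^ 2 < (bx A j).card * f (2 ^ j) := by
  by_contra hcon
  push Not at hcon
  apply hns
  refine summf A hA f hf hf1 (fun j => w j + if j < j0 then
    ((bx A j).card : ℝ) * f (2 ^ j) / ((2 : ℝ) ^ j) ^ 2 else 0) ?_ ?_ ?_
  · intro j
    have := hw0 j
    have := hf1 (2 ^ j)
    have h1 : (0 : ℝ) ≤ ((bx A j).card : ℝ) * f (2 ^ j) / ((2 : ℝ) ^ j) ^ 2 := by positivity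
    split_ifs <;> linarith
  · refine hw.add (summable_of_hasFiniteSupport ?_)
    refine (Set.finite_lt_nat j0).subset fun j hj => ?_
    by_contra h
    rw [Function.mem_support] at hj
    exact hj (if_neg h)
  · intro j
    have hp : (0 : ℝ) < ((2 : ℝ) ^ j) ^ 2 := by positivity
    by_cases hj : j < j0
    · simp only [if_pos hj]
      rw [add_mul, div_mul_cancel₀ _ hp.ne']
      have := mul_nonneg (hw0 j) hp.le
      linarith
    · simp only [if_neg hj, add_zero]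
      exact hcon j (by omega)

theorem NearGrid.subset {A B : Set (ℕ × ℕ)} {m : ℕ} {d ρ : ℝ} (h : NearGrid A m d ρ)
    (hAB : A ⊆ B) : NearGrid B m d ρ := by
  obtain ⟨x, y, s, t, h1, h2, h3⟩ := h
  exact ⟨x, y, s, t, fun a b => hAB (h1 a b), h2, h3⟩

theorem unif (m : ℕ) (hm : 0 < m) : ∃ C c : ℝ, 0 < C ∧ 0 < c ∧
    ∀ (A : Set (ℕ × ℕ)) (f : ℕ → ℝ), (∀ p ∈ A, 0 < p.1 ∧ 0 < p.2) → Monotone f →
      (∀ n, 1 ≤ f n) →
      ¬ Summable (fun p : A => f (max p.1.1 p.1.2) / ((p.1.1 : ℝ) ^ 2 + (p.1.2 : ℝ) ^ 2)) →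
        ∀ D : ℕ, ∃ N d : ℕ, D ≤ N ∧ N ≤ d ^ 3 ∧ d ≤ N ∧
          NearGrid {z | z ∈ A ∧ z.1 ≤ N ∧ z.2 ≤ N} m d
            (C * d * Real.exp (-(c * Real.log N / Real.log (f N * Real.log N)))) := by
  obtain ⟨C, c, hC, hc, hmain⟩ := fin_rel m hm
  refine ⟨C, c / 4, hC, by positivity, ?_⟩
  intro A f hA hf hf1 hns D
  obtain ⟨j, hj, hcard⟩ := freqf A hA f hf hf1 (fun j => 1 / (j : ℝ) ^ 2)
    (fun j => by positivity) (Real.summable_one_div_nat_pow.2 (by norm_num)) hns (D + 4)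
  have hj3 : (4 : ℝ) ≤ j := by exact_mod_cast (by omega : 4 ≤ j)
  have hjpos : (0 : ℝ) < j := by linarith
  have hfN := hf1 (2 ^ j)
  obtain ⟨F, hF⟩ : ∃ F : ℝ, F = f (2 ^ j) := ⟨_, rfl⟩
  rw [← hF] at hfN hcard
  have hδ : 1 / ((j : ℝ) ^ 2 * F) * (((2 ^ j : ℕ) : ℝ)) ^ 2 ≤ (bx A j).card := by
    rw [div_mul_eq_mul_div, one_mul, ← div_div, div_le_iff₀ (by linarith)]
    refine le_trans (le_of_eq ?_) hcard.le
    push_cast
    ring
  obtain ⟨d, hd1, hd2, hd3⟩ := hmain (2 ^ j) (bx A j) (by positivity) (bx_sub A j)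
    (1 / ((j : ℝ) ^ 2 * F)) (by positivity) hδ
  have hlog2 := Real.log_two_gt_d9
  have hlog2' := Real.log_two_lt_d9
  have hlogN : Real.log ((2 ^ j : ℕ) : ℝ) = j * Real.log 2 := by
    push_cast
    rw [Real.log_pow]
  obtain ⟨l, hl⟩ : ∃ l : ℝ, l = Real.log ((2 ^ j : ℕ) : ℝ) := ⟨_, rfl⟩
  have hl1 : 2 / 3 * j ≤ l := by
    rw [hl, hlogN]
    nlinarith
  have hl2 : 2 ≤ l := by linarith
  have hFl : 2 ≤ F * l := by nlinarith
  have hlog : 0 < Real.log (F * l) := Real.log_pos (by linarith)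
  have hle : Real.log (2 / (1 / ((j : ℝ) ^ 2 * F))) ≤ 4 * Real.log (F * l) := by
    have h1 : 2 / (1 / ((j : ℝ) ^ 2 * F)) ≤ (F * l) ^ 4 := by
      rw [div_div_eq_mul_div, div_one]
      have h2 : F ≤ F ^ 4 := le_self_pow₀ hfN (by norm_num)
      have h3 : 2 * (j : ℝ) ^ 2 ≤ l ^ 4 := by
        have h4 : 4 / 9 * (j : ℝ) ^ 2 ≤ l ^ 2 := by nlinarith
        have h5 : 0 ≤ 4 / 9 * (j : ℝ) ^ 2 := by positivity
        have h6 : (4 / 9 * (j : ℝ) ^ 2) * (4 / 9 * (j : ℝ) ^ 2) ≤ l ^ 2 * l ^ 2 :=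
          mul_le_mul h4 h4 h5 (by positivity)
        have h7 : (l ^ 4 : ℝ) = l ^ 2 * l ^ 2 := by ring
        rw [h7]
        have h8 : (16 : ℝ) ≤ j ^ 2 := by nlinarith
        have h9 : (16 : ℝ) * j ^ 2 ≤ j ^ 2 * j ^ 2 :=
          mul_le_mul_of_nonneg_right h8 (by positivity)
        nlinarith
      calc 2 * ((j : ℝ) ^ 2 * F) = (2 * (j : ℝ) ^ 2) * F := by ring
        _ ≤ l ^ 4 * F ^ 4 := mul_le_mul h3 h2 (by linarith) (by positivity)
        _ = (F * l) ^ 4 := by ring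
    have h2 := Real.log_le_log (by positivity) h1
    rw [Real.log_pow] at h2
    exact_mod_cast h2
  have hpos2 : 0 < Real.log (2 / (1 / ((j : ℝ) ^ 2 * F))) := by
    apply Real.log_pos
    rw [div_div_eq_mul_div, div_one]
    nlinarith [sq_nonneg (j : ℝ)]
  have hjN : j < 2 ^ j := Nat.lt_two_pow_self
  refine ⟨2 ^ j, d, by omega, hd1, hd2, ?_⟩
  have hsub : (bx A j : Set (ℕ × ℕ)) ⊆ {z | z ∈ A ∧ z.1 ≤ 2 ^ j ∧ z.2 ≤ 2 ^ j} := by
    intro z hz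
    have h1 := bx_sub A j (mem_coe.1 hz)
    rw [mem_product, mem_Icc, mem_Icc] at h1
    exact ⟨bx_mem (mem_coe.1 hz), h1.1.2, h1.2.2⟩
  refine (hd3.subset hsub).mono ?_
  apply mul_le_mul_of_nonneg_left _ (by positivity)
  apply Real.exp_le_exp.2
  apply neg_le_neg
  rw [← hl, ← hF]
  rw [div_le_div_iff₀ hlog hpos2]
  have h1 : c * l * Real.log (2 / (1 / ((j : ℝ) ^ 2 * F))) ≤ c * l * (4 * Real.log (F * l)) :=
    mul_le_mul_of_nonneg_left hle (by positivity)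
  nlinarith

end Pool.Agent.Helper52.NG
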